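import Pool.Agent.Work.MP_1ce445_s9.S9
import Pool.Agent.Work.MP_1ce445_pl4.Interface

namespace Pool.Agent.Work.MP_1ce445_s9

theorem h_S9 : Pool.Agent.Work.MP_1ce445_pl4.Stmt_S9 := by
  intro V _ k M T h0 hs hf
  exact S9_final M T h0 hs hf

end Pool.Agent.Work.MP_1ce445_s9
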