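import Pool.Agent.Work.MP_1ce445_s9.Interface

namespace Pool.Agent.Work.MP_1ce445_s9

open Finset Pool.Agent.Work.MP_1ce445_co_56 Pool.Agent.Work.MP_1ce445_lin

lemma ALT_symm {V : Type} {k : ℕ} (T : V → Finset (Fin k)) (a b : Fin k) (h : R T a b) :
    R T b a := by
  obtain ⟨h1, v, hv⟩ := h
  exact ⟨h1.symm, v, by rw [hv, Finset.pair_comm]⟩

lemma ALT_two {V : Type} {k : ℕ} (T : V → Finset (Fin k)) (v : V) (h : (T v).card = 2) :
    ∃ a b, R T a b ∧ T v = {a, b} := by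
  obtain ⟨a, b, hab, hv⟩ := Finset.card_eq_two.mp h
  exact ⟨a, b, ⟨hab, v, hv⟩, hv⟩

lemma ALT_none {V : Type} [Fintype V] {k : ℕ} (M : Finset (Fin k)) (T : V → Finset (Fin k))
    (c : ℝ) (hTHR : Stmt_THR) (hK : Kf M T c) (h : ∀ a b, ¬ R T a b) : Bd M T c := by
  classical
  apply hTHR M T c hK
  have h0 : n2 T = 0 := by
    unfold n2
    rw [Finset.card_eq_zero, Finset.filter_eq_empty_iff]
    intro v _ hv
    obtain ⟨a, b, hab, _⟩ := ALT_two T v hv
    exact h a b hab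
  rw [h0]
  have hc0 : 0 ≤ c := by linarith [hK.cl]
  simp only [Nat.cast_zero]
  positivity

theorem stmt_ALT (hTHR : Stmt_THR) (hSTL : Stmt_STL) (hM3 : Stmt_M3) (hC4 : Stmt_C4)
    (hTE : Stmt_TE) (hTLL : Stmt_TLL) (hPWL : Stmt_PWL) (hPWS : Stmt_PWS) (hC5 : Stmt_C5)
    (hDBL : Stmt_DBL) (hCL7 : Stmt_CL7) (hHCA : Stmt_HCA) : Stmt_ALT := by
  classical
  intro V _ k M T c hK
  by_cases hL : Light T c
  swap
  · unfold Light at hL
    push Not at hL
    obtain ⟨x, y, hxy, hheavy⟩ := hL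
    exact hHCA M T c hK x y hxy hheavy
  by_cases hn2 : (n2 T : ℝ) ≤ 2 * c * Fintype.card V
  · exact hTHR M T c hK hn2
  push Not at hn2
  have hcls := hCL7 (R T) (ALT_symm T) (fun a h => h.1 rfl)
  rcases hcls with h | ⟨x, h⟩ | ⟨a1, b1, a2, b2, a3, b3, hn, h1, h2, h3⟩ |
    ⟨x1, x2, x3, x4, hn, h1, h2, h3, h4⟩ | ⟨x1, x2, x3, y1, y2, hn, h1, h2, h3, h4⟩ |
    ⟨x1, x2, x3, h1, h2, h3, h⟩ | ⟨x, y, z, w, hn, h1, h2, h3, h4, h⟩ | ⟨p, hp, h1, h⟩ |
    ⟨x, y, a, b, hn, h1, h2, h3, h4, h⟩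
  · exact ALT_none M T c hTHR hK h
  · apply hSTL M T c hK hL x _ hn2
    intro v hv
    obtain ⟨a, b, hab, hT⟩ := ALT_two T v hv
    rw [hT]
    simp only [Finset.mem_insert, Finset.mem_singleton]
    rcases h a b hab with e | e
    · exact Or.inl e.symm
    · exact Or.inr e.symm
  · exact hM3 M T c hK a1 b1 a2 b2 a3 b3 hn h1 h2 h3
  · exact hC4 M T c hK x1 x2 x3 x4 hn h1 h2 h3 h4
  · exact hTE M T c hK x1 x2 x3 y1 y2 hn h1 h2 h3 h4
  · apply hTLL M T c hK hL x1 x2 x3 h1 h2 h3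
    intro v hv
    obtain ⟨a, b, hab, hT⟩ := ALT_two T v hv
    obtain ⟨ha, hb⟩ := h a b hab
    rw [hT]
    intro w hw
    simp only [Finset.mem_insert, Finset.mem_singleton] at hw ⊢
    rcases hw with rfl | rfl
    · exact ha
    · exact hb
  · have hall : ∀ v, (T v).card = 2 → x ∈ T v ∨ T v = {y, z} := by
      intro v hv
      obtain ⟨u, t, hut, hT⟩ := ALT_two T v hv
      rw [hT]
      rcases h u t hut with e | e | ⟨e1, e2⟩ | ⟨e1, e2⟩
      · left; simp [e]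
      · left; simp [e]
      · right; rw [e1, e2]
      · right; rw [e1, e2, Finset.pair_comm]
    rcases le_total (9 / 20) (1 - pr T x) with hb | hb
    · exact hPWL M T c hK hL x y z w hn h1 h2 h3 h4 hall hb
    · have hn' : [x, y, z].Nodup := by
        simp only [List.nodup_cons, List.mem_cons, List.not_mem_nil, or_false, not_or,
          List.nodup_nil, and_true, not_false_eq_true] at hn ⊢
        tauto
      exact hPWS M T c hK hL x y z hn' h3 hall hb
  · apply hC5 M T c hK p hp h1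
    intro v hv
    obtain ⟨a, b, hab, hT⟩ := ALT_two T v hv
    obtain ⟨i, hi⟩ := h a b hab
    refine ⟨i, ?_⟩
    rcases hi with ⟨e1, e2⟩ | ⟨e1, e2⟩
    · rw [hT, e1, e2]
    · rw [hT, e1, e2, Finset.pair_comm]
  · apply hDBL M T c hK hL x y a b hn h1 h2 h3 h4
    intro v hv
    obtain ⟨u, t, hut, hT⟩ := ALT_two T v hv
    rw [hT]
    simp only [Finset.mem_insert, Finset.mem_singleton]
    rcases h u t hut with e | e | e | e
    · exact Or.inl (Or.inl e.symm)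
    · exact Or.inl (Or.inr e.symm)
    · exact Or.inr (Or.inl e.symm)
    · exact Or.inr (Or.inr e.symm)

end Pool.Agent.Work.MP_1ce445_s9
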