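import Pool.Agent.Work.MP_1ce445_s9.Interface

/-!
THEOREM S7 for MP_1ce445_co, block C4: 4-cycles.
-/

namespace Pool.Agent.Work.MP_1ce445_s9

open Finset Pool.Agent.Work.MP_1ce445_co_56 Pool.Agent.Work.MP_1ce445_lin

theorem C4_symm {V : Type} {k : ℕ} {T : V → Finset (Fin k)} {a b : Fin k} (h : R T a b) :
    R T b a := by
  obtain ⟨h1, v, hv⟩ := h
  exact ⟨h1.symm, v, by rw [hv, Finset.pair_comm]⟩

theorem stmt_C4 (hPH : Stmt_PH) (hK4 : Stmt_K4) (hCKA : Stmt_CKA) (hCIA : Stmt_CIA)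
    (hCB : Stmt_CB) : Stmt_C4 := by
  intro V _ k M T c K x1 x2 x3 x4 hnd h13 h14 h23 h24
  have hnd' : [x3, x4, x1, x2].Nodup := by
    simp only [List.nodup_cons, List.mem_cons, List.not_mem_nil, or_false, not_or,
      List.nodup_nil, not_false_iff, and_true] at hnd ⊢
    obtain ⟨⟨h1, h2, h3⟩, ⟨h4, h5⟩, h6⟩ := hnd
    exact ⟨⟨h6, fun h => h2 h.symm, fun h => h4 h.symm⟩,
      ⟨fun h => h3 h.symm, fun h => h5 h.symm⟩, h1⟩
  have h31 := C4_symm h13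
  have h41 := C4_symm h14
  have h32 := C4_symm h23
  have h42 := C4_symm h24
  by_cases hh1 : c * Fintype.card V < nx T x1 x2
  · exact hPH M T c K x1 x2 x3 x4 hnd h13 h14 h23 h24 hh1
  by_cases hh2 : c * Fintype.card V < nx T x3 x4
  · exact hPH M T c K x3 x4 x1 x2 hnd' h31 h32 h41 h42 hh2
  rw [not_lt] at hh1 hh2
  by_cases h12 : R T x1 x2
  · by_cases h34 : R T x3 x4
    · exact hK4 M T c K x1 x2 x3 x4 hnd h13 h14 h23 h24 h12 h34
    · rcases le_total (1 / 10 : ℝ) (tr T x3 x4 x1 x2) with h | h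
      · exact hCKA M T c K x1 x2 x3 x4 hnd h13 h14 h23 h24 h12 hh1 h34 h
      · exact hCB M T c K x1 x2 x3 x4 hnd h13 h14 h23 h24 hh1 h34 h
  · by_cases h34 : R T x3 x4
    · rcases le_total (1 / 10 : ℝ) (tr T x1 x2 x3 x4) with h | h
      · exact hCKA M T c K x3 x4 x1 x2 hnd' h31 h32 h41 h42 h34 hh2 h12 h
      · exact hCB M T c K x3 x4 x1 x2 hnd' h31 h32 h41 h42 hh2 h12 h
    · rcases le_total (1 / 10 : ℝ) (tr T x3 x4 x1 x2) with h | h
      · exact hCIA M T c K x1 x2 x3 x4 hnd h13 h14 h23 h24 h12 h34 h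
      · exact hCB M T c K x1 x2 x3 x4 hnd h13 h14 h23 h24 hh1 h34 h

end Pool.Agent.Work.MP_1ce445_s9
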