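import Pool.Agent.Work.MP_1ce445_s9.Interface

/-!
# Block C4S (MP_1ce445_co, theorem S7): the transversal sum (helper2)
-/

namespace Pool.Agent.Work.MP_1ce445_s9

open Finset Pool.Agent.Work.MP_1ce445_co_56 Pool.Agent.Work.MP_1ce445_lin

lemma C4S_pairs {V : Type} [Fintype V] {k : ℕ} (T : V → Finset (Fin k)) (S : Finset (Fin k))
    (B C : Finset V) (m : ℝ)
    (h : ∀ v ∈ B, m ≤ ((C.filter (fun w => ∃ x ∈ S, x ∈ T v ∧ x ∈ T w)).card : ℝ)) :
    (B.card : ℝ) * m ≤ ∑ x ∈ S, (((B.filter (fun v => x ∈ T v)).card : ℝ) *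
      ((C.filter (fun w => x ∈ T w)).card : ℝ)) := by
  classical
  have e1 : ∀ x ∈ S, (((B.filter (fun v => x ∈ T v)).card : ℝ) *
      ((C.filter (fun w => x ∈ T w)).card : ℝ)) =
      ∑ v ∈ B, if x ∈ T v then ((C.filter (fun w => x ∈ T w)).card : ℝ) else 0 := by
    intro x _
    rw [← Finset.sum_filter, Finset.sum_const, nsmul_eq_mul]
  rw [Finset.sum_congr rfl e1, Finset.sum_comm]
  rw [← nsmul_eq_mul, ← Finset.sum_const]
  apply Finset.sum_le_sum
  intro v hv
  refine (h v hv).trans ?_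
  rw [← Finset.sum_filter]
  have : (C.filter (fun w => ∃ x ∈ S, x ∈ T v ∧ x ∈ T w)).card ≤
      ∑ x ∈ S.filter (fun x => x ∈ T v), (C.filter (fun w => x ∈ T w)).card := by
    refine le_trans (Finset.card_le_card ?_) (Finset.card_biUnion_le)
    intro w hw
    simp only [Finset.mem_filter, Finset.mem_biUnion] at hw ⊢
    obtain ⟨hwC, x, hxS, hxv, hxw⟩ := hw
    exact ⟨x, ⟨hxS, hxv⟩, hwC, hxw⟩
  exact_mod_cast this

theorem stmt_C4S : Stmt_C4S := by
  classical
  intro V _ k M T c hK x1 x2 x3 x4 _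
  have hN : (0 : ℝ) < Fintype.card V := by exact_mod_cast hK.pos
  set N : ℝ := (Fintype.card V : ℝ) with hNdef
  set B : Finset V := univ.filter (fun v => x3 ∈ T v ∧ x4 ∈ T v ∧ x1 ∉ T v ∧ x2 ∉ T v) with hB
  set D : Finset V := univ.filter (fun v => x1 ∈ T v ∧ x2 ∈ T v ∧ x3 ∉ T v ∧ x4 ∉ T v) with hD
  have hBt : tr T x3 x4 x1 x2 = (B.card : ℝ) / N := rfl
  have hDt : tr T x1 x2 x3 x4 = (D.card : ℝ) / N := rfl
  set S : Finset (Fin k) := M.filter (fun x => ∀ i, x ≠ ![x1, x2, x3, x4] i) with hS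
  have hpairs := C4S_pairs T S B D (D.card - c * N) (by
    intro v hv
    simp only [hB, Finset.mem_filter, Finset.mem_univ, true_and] at hv
    obtain ⟨_, _, hv1, hv2⟩ := hv
    have hsub : D ⊆ D.filter (fun w => ∃ j ∈ S, j ∈ T v ∧ j ∈ T w) ∪
        univ.filter (fun w => T v ∩ T w = ∅) := by
      intro w hw
      rw [Finset.mem_union]
      by_cases hd : T v ∩ T w = ∅
      · right
        simp [hd]
      · left
        obtain ⟨j, hj⟩ := Finset.nonempty_iff_ne_empty.2 hd
        rw [Finset.mem_inter] at hj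
        rw [Finset.mem_filter]
        refine ⟨hw, j, ?_, hj.1, hj.2⟩
        simp only [hD, Finset.mem_filter, Finset.mem_univ, true_and] at hw
        obtain ⟨_, _, hw3, hw4⟩ := hw
        rw [hS, Finset.mem_filter]
        refine ⟨hK.sub v hj.1, ?_⟩
        intro i
        fin_cases i
        · rintro rfl
          exact hv1 hj.1
        · rintro rfl
          exact hv2 hj.1
        · rintro rfl
          exact hw3 hj.2
        · rintro rfl
          exact hw4 hj.2
    have hc := (Finset.card_le_card hsub).trans (Finset.card_union_le _ _)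
    have hc' : (D.card : ℝ) ≤
        ((D.filter (fun w => ∃ j ∈ S, j ∈ T v ∧ j ∈ T w)).card : ℝ) +
          ((univ.filter (fun w => T v ∩ T w = ∅)).card : ℝ) := by
      exact_mod_cast hc
    have := hK.few v
    linarith)
  have hsq : ∀ j ∈ S, 4 * (((B.filter (fun v => j ∈ T v)).card : ℝ) *
      ((D.filter (fun w => j ∈ T w)).card : ℝ)) ≤ pr T j ^ 2 * N ^ 2 := by
    intro j _
    have hx1 : pr T j * N = ((univ.filter (fun v => j ∈ T v)).card : ℝ) := by
      unfold pr
      rw [div_mul_cancel₀ _ hN.ne']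
    have hdis : Disjoint (B.filter (fun v => j ∈ T v)) (D.filter (fun v => j ∈ T v)) := by
      rw [Finset.disjoint_left]
      intro w hw hw2
      simp only [hB, hD, Finset.mem_filter, Finset.mem_univ, true_and] at hw hw2
      exact hw.1.2.2.1 hw2.1.1
    have hx2 : ((B.filter (fun v => j ∈ T v)).card : ℝ) + ((D.filter (fun v => j ∈ T v)).card : ℝ) ≤
        ((univ.filter (fun v => j ∈ T v)).card : ℝ) := by
      have : (B.filter (fun v => j ∈ T v)).card + (D.filter (fun v => j ∈ T v)).card ≤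
          (univ.filter (fun v => j ∈ T v)).card := by
        rw [← Finset.card_union_of_disjoint hdis]
        apply Finset.card_le_card
        intro w hw
        rw [Finset.mem_filter]
        rcases Finset.mem_union.1 hw with hw | hw
        · exact ⟨Finset.mem_univ _, (Finset.mem_filter.1 hw).2⟩
        · exact ⟨Finset.mem_univ _, (Finset.mem_filter.1 hw).2⟩
      exact_mod_cast this
    have hb : (0 : ℝ) ≤ ((B.filter (fun v => j ∈ T v)).card : ℝ) := Nat.cast_nonneg _
    have hd : (0 : ℝ) ≤ ((D.filter (fun v => j ∈ T v)).card : ℝ) := Nat.cast_nonneg _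
    rw [← mul_pow, hx1]
    nlinarith [sq_nonneg (((D.filter (fun v => j ∈ T v)).card : ℝ) -
      ((B.filter (fun v => j ∈ T v)).card : ℝ))]
  have hsum := Finset.sum_le_sum hsq
  rw [← Finset.mul_sum, ← Finset.sum_mul] at hsum
  have hN2 : 0 < N ^ 2 := by positivity
  have e7 : (4 * (tr T x3 x4 x1 x2 * (tr T x1 x2 x3 x4 - c))) * N ^ 2 ≤
      (∑ j ∈ S, pr T j ^ 2) * N ^ 2 := by
    refine le_trans ?_ hsum
    refine le_trans (le_of_eq ?_) (mul_le_mul_of_nonneg_left hpairs (by norm_num : (0:ℝ) ≤ 4))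
    rw [hBt, hDt]
    field_simp
  exact le_of_mul_le_mul_right e7 hN2

end Pool.Agent.Work.MP_1ce445_s9
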