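import Pool.Agent.Work.MP_1ce445_s9.Interface

/-! # Block C5 (MP_1ce445_co, theorem S7): the 5-cycle (helper60) -/

namespace Pool.Agent.Work.MP_1ce445_s9

open Finset Pool.Agent.Work.MP_1ce445_co_56 Pool.Agent.Work.MP_1ce445_lin

/-- a present pair is missed by at most `c N` sets -/
theorem C5_miss {V : Type} [Fintype V] {k : ℕ} (M : Finset (Fin k)) (T : V → Finset (Fin k))
    (c : ℝ) (hK : Kf M T c) (a b : Fin k) (h : R T a b) :
    (∑ v : V, if a ∉ T v ∧ b ∉ T v then (1 : ℝ) else 0) ≤ c * Fintype.card V := by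
  classical
  obtain ⟨_, v0, hv0⟩ := h
  have hf := hK.few v0
  rw [← Finset.sum_filter, Finset.sum_const, nsmul_eq_mul, mul_one]
  refine le_trans ?_ hf
  apply le_of_eq
  congr 2
  ext w
  simp only [Finset.mem_filter, Finset.mem_univ, true_and, hv0]
  constructor
  · rintro ⟨ha, hb⟩
    ext z
    simp only [Finset.mem_inter, Finset.mem_insert, Finset.mem_singleton, Finset.notMem_empty,
      iff_false, not_and]
    rintro (rfl | rfl)
    · exact ha
    · exact hb
  · intro hw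
    have hz : ∀ z, z ∈ ({a, b} : Finset (Fin k)) → z ∉ T w := by
      intro z hz hzw
      have : z ∈ ({a, b} : Finset (Fin k)) ∩ T w := Finset.mem_inter.2 ⟨hz, hzw⟩
      rw [hw] at this
      exact absurd this (Finset.notMem_empty z)
    exact ⟨hz a (by simp), hz b (by simp)⟩

/-- a set with two elements is a pair of neighbours -/
theorem C5_fin2 (t : Fin 5 → Bool) (i : Fin 5)
    (ht : ∀ x, t x = decide (x = i ∨ x = i + 1)) :
    (6 : ℝ) ≤ 2 + (∑ j, if t j = true then (2 : ℝ) - 1 else 0) +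
      ∑ j : Fin 5, if t j = false ∧ t (j + 1) = false then (1 : ℝ) else 0 := by
  have e0 := ht 0
  have e1 := ht 1
  have e2 := ht 2
  have e3 := ht 3
  have e4 := ht 4
  clear ht
  have z0 : (0 : Fin 5) + 1 = 1 := rfl
  have z1 : (1 : Fin 5) + 1 = 2 := rfl
  have z2 : (2 : Fin 5) + 1 = 3 := rfl
  have z3 : (3 : Fin 5) + 1 = 4 := rfl
  have z4 : (4 : Fin 5) + 1 = 0 := rfl
  simp only [Fin.sum_univ_five, z0, z1, z2, z3, z4]
  have key : (t 0 = true ∧ t 1 = true ∧ t 2 = false ∧ t 3 = false ∧ t 4 = false) ∨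
      (t 0 = false ∧ t 1 = true ∧ t 2 = true ∧ t 3 = false ∧ t 4 = false) ∨
      (t 0 = false ∧ t 1 = false ∧ t 2 = true ∧ t 3 = true ∧ t 4 = false) ∨
      (t 0 = false ∧ t 1 = false ∧ t 2 = false ∧ t 3 = true ∧ t 4 = true) ∨
      (t 0 = true ∧ t 1 = false ∧ t 2 = false ∧ t 3 = false ∧ t 4 = true) := by
    rw [e0, e1, e2, e3, e4]
    clear e0 e1 e2 e3 e4
    revert i
    decide
  rcases key with ⟨q0, q1, q2, q3, q4⟩ | ⟨q0, q1, q2, q3, q4⟩ | ⟨q0, q1, q2, q3, q4⟩ |
    ⟨q0, q1, q2, q3, q4⟩ | ⟨q0, q1, q2, q3, q4⟩ <;>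
    simp only [q0, q1, q2, q3, q4, if_true, if_false, and_self, and_true, and_false,
      Bool.true_eq_false, Bool.false_eq_true] <;> norm_num

theorem C5_fin3 (t : Fin 5 → Bool) (w : ℝ) (h3 : 3 ≤ w)
    (h4 : (∑ i, if t i = true then (1 : ℝ) else 0) ≤ w) :
    (6 : ℝ) ≤ w + (∑ i, if t i = true then (2 : ℝ) - 1 else 0) +
      ∑ j : Fin 5, if t j = false ∧ t (j + 1) = false then (1 : ℝ) else 0 := by
  have z0 : (0 : Fin 5) + 1 = 1 := rfl
  have z1 : (1 : Fin 5) + 1 = 2 := rfl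
  have z2 : (2 : Fin 5) + 1 = 3 := rfl
  have z3 : (3 : Fin 5) + 1 = 4 := rfl
  have z4 : (4 : Fin 5) + 1 = 0 := rfl
  simp only [Fin.sum_univ_five, z0, z1, z2, z3, z4] at h4 ⊢
  rcases e0 : t 0 with _ | _ <;> rcases e1 : t 1 with _ | _ <;> rcases e2 : t 2 with _ | _ <;>
    rcases e3 : t 3 with _ | _ <;> rcases e4 : t 4 with _ | _ <;>
    simp [e0, e1, e2, e3, e4] at h4 ⊢ <;>
    norm_num at h4 ⊢ <;> linarith

theorem C5_count {k : ℕ} (S : Finset (Fin k)) (p : Fin 5 → Fin k) (hp : Function.Injective p) :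
    (∑ i, if p i ∈ S then (1 : ℝ) else 0) ≤ S.card := by
  classical
  rw [← Finset.sum_filter, Finset.sum_const, nsmul_eq_mul, mul_one]
  have e : (univ.filter (fun i => p i ∈ S)).card ≤ S.card :=
    Finset.card_le_card_of_injOn p (fun i hi => by simpa using hi) hp.injOn
  exact_mod_cast e

theorem C5_case {k : ℕ} (S : Finset (Fin k)) (p : Fin 5 → Fin k) (hp : Function.Injective p)
    (h2 : 2 ≤ S.card) (hS : S.card = 2 → ∃ i, S = {p i, p (i + 1)}) :
    (6 : ℝ) ≤ (S.card : ℝ) + (∑ i, if p i ∈ S then (2 : ℝ) - 1 else 0) +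
      ∑ i : Fin 5, if p i ∉ S ∧ p (i + 1) ∉ S then (1 : ℝ) else 0 := by
  classical
  rcases Nat.eq_or_lt_of_le h2 with h | h
  · obtain ⟨i, hi⟩ := hS h.symm
    have key := C5_fin2 (fun x => decide (p x ∈ S)) i (by
      intro x
      rw [hi]
      simp only [Finset.mem_insert, Finset.mem_singleton, hp.eq_iff])
    have hc : (S.card : ℝ) = 2 := by exact_mod_cast h.symm
    rw [hc]
    simpa only [decide_eq_true_eq, decide_eq_false_iff_not] using key
  · have hc : (3 : ℝ) ≤ S.card := by exact_mod_cast h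
    have key := C5_fin3 (fun x => decide (p x ∈ S)) S.card hc (by
      simpa only [decide_eq_true_eq] using C5_count S p hp)
    simpa only [decide_eq_true_eq, decide_eq_false_iff_not] using key

theorem stmt_C5 (h1 : Stmt_TG) (h2 : Stmt_LPC) : Stmt_C5 := by
  classical
  intro V _ k M T c hK p hinj hR hT
  have hN : (0 : ℝ) < Fintype.card V := by exact_mod_cast hK.pos
  have key := h2 M T hK.pos hK.sub 5 p (fun _ => 2)
    (fun v => ∑ i : Fin 5, if p i ∉ T v ∧ p (i + 1) ∉ T v then (1 : ℝ) else 0) 6 hinj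
    (fun _ => by norm_num) (fun v => C5_case (T v) p hinj (hK.two v) (hT v))
  unfold Bd
  refine key.trans ?_
  have hsum : (∑ v : V, ∑ i : Fin 5, if p i ∉ T v ∧ p (i + 1) ∉ T v then (1 : ℝ) else 0) /
      Fintype.card V ≤ 5 * c := by
    rw [div_le_iff₀ hN, Finset.sum_comm]
    have hb : ∀ i ∈ (univ : Finset (Fin 5)),
        (∑ v : V, if p i ∉ T v ∧ p (i + 1) ∉ T v then (1 : ℝ) else 0) ≤ c * Fintype.card V :=
      fun i _ => C5_miss M T c hK (p i) (p (i + 1)) (hR i)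
    have hs := Finset.sum_le_card_nsmul _ _ _ hb
    simp only [Finset.card_univ, Fintype.card_fin, nsmul_eq_mul] at hs
    refine hs.trans (le_of_eq ?_)
    push_cast
    ring
  have hsq : 0 ≤ ∑ x ∈ M.filter (fun x => ∀ i, x ≠ p i), pr T x ^ 2 :=
    Finset.sum_nonneg (fun x _ => sq_nonneg _)
  have hl : (∑ _i : Fin 5, ((2 : ℝ) - 1 - Real.log 2)) = 5 * (1 - Real.log 2) := by
    simp only [Finset.sum_const, Finset.card_univ, Fintype.card_fin, nsmul_eq_mul]
    push_cast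
    ring
  have htg := h1 c (5 * (1 - Real.log 2) - 6) 5 hK.cl hK.cu (by norm_num)
    (by have := Real.log_two_gt_d9; linarith) (by have := Real.log_two_gt_d9; linarith)
  refine le_trans (Real.exp_le_exp.2 ?_) htg
  have hfin : ∀ A B C : ℝ, A = 5 * (1 - Real.log 2) → B ≤ 5 * c → 0 ≤ C →
      A - 6 + B - C / 2 ≤ 5 * (1 - Real.log 2) - 6 + 5 * c := by
    intro A B C hA hB hC
    linarith
  exact hfin _ _ _ hl hsum hsq

end Pool.Agent.Work.MP_1ce445_s9
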