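import Pool.Agent.Work.MP_1ce445_s9.Interface

/-! # Block CB: a 4-cycle, `x3 x4` absent, `x1 x2` not heavy, small third class -/

namespace Pool.Agent.Work.MP_1ce445_s9

open Finset Pool.Agent.Work.MP_1ce445_co_56 Pool.Agent.Work.MP_1ce445_lin

theorem CB_log1 : (7 / 8 : ℝ) ≤ Real.log (12 / 5) := by
  have h1 : Real.exp 7 ≤ (12 / 5 : ℝ) ^ 8 := by
    have h2 : Real.exp 7 = Real.exp 1 ^ 7 := by
      rw [← Real.exp_nat_mul]
      norm_num
    rw [h2]
    have h3 := Real.exp_one_lt_d9
    calc Real.exp 1 ^ 7 ≤ (2.7182818286 : ℝ) ^ 7 :=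
          pow_le_pow_left₀ (Real.exp_pos 1).le h3.le 7
      _ ≤ (12 / 5 : ℝ) ^ 8 := by norm_num
  have h4 := Real.log_le_log (Real.exp_pos 7) h1
  rw [Real.log_exp, Real.log_pow] at h4
  push_cast at h4
  linarith

theorem CB_log2 : (9 / 17 : ℝ) ≤ Real.log (17 / 10) := by
  have h1 : Real.exp 9 ≤ (17 / 10 : ℝ) ^ 17 := by
    have h2 : Real.exp 9 = Real.exp 1 ^ 9 := by
      rw [← Real.exp_nat_mul]
      norm_num
    rw [h2]
    have h3 := Real.exp_one_lt_d9
    calc Real.exp 1 ^ 9 ≤ (2.7182818286 : ℝ) ^ 9 :=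
          pow_le_pow_left₀ (Real.exp_pos 1).le h3.le 9
      _ ≤ (17 / 10 : ℝ) ^ 17 := by norm_num
  have h4 := Real.log_le_log (Real.exp_pos 9) h1
  rw [Real.log_exp, Real.log_pow] at h4
  push_cast at h4
  linarith

theorem CB_card2 {k : ℕ} (S : Finset (Fin k)) (a b : Fin k) (hab : a ≠ b) (ha : a ∈ S)
    (hb : b ∈ S) : S = {a, b} ∨ (3 : ℝ) ≤ (S.card : ℝ) := by
  by_cases h : 3 ≤ S.card
  · right
    exact_mod_cast h
  · left
    have h1 : ({a, b} : Finset (Fin k)) ⊆ S := by
      intro x hx
      simp only [Finset.mem_insert, Finset.mem_singleton] at hx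
      rcases hx with rfl | rfl
      · exact ha
      · exact hb
    have h2 : ({a, b} : Finset (Fin k)).card = 2 := Finset.card_pair hab
    exact (Finset.eq_of_subset_of_card_le h1 (by omega)).symm

theorem CB_card3 {k : ℕ} (S : Finset (Fin k)) (a b d : Fin k) (hab : a ≠ b) (had : a ≠ d)
    (hbd : b ≠ d) (ha : a ∈ S) (hb : b ∈ S) (hd : d ∈ S) : (3 : ℝ) ≤ (S.card : ℝ) := by
  rcases CB_card2 S a b hab ha hb with h | h
  · rw [h] at hd
    simp only [Finset.mem_insert, Finset.mem_singleton] at hd
    rcases hd with rfl | rfl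
    · exact absurd rfl had
    · exact absurd rfl hbd
  · exact h

theorem CB_miss {V : Type} [Fintype V] {k : ℕ} (M : Finset (Fin k)) (T : V → Finset (Fin k))
    (c : ℝ) (hK : Kf M T c) (a b : Fin k) (hR : R T a b) :
    ((univ.filter (fun w => a ∉ T w ∧ b ∉ T w)).card : ℝ) ≤ c * Fintype.card V := by
  classical
  obtain ⟨_, v, hv⟩ := hR
  have h := hK.few v
  have h1 : univ.filter (fun w => T v ∩ T w = ∅) = univ.filter (fun w => a ∉ T w ∧ b ∉ T w) := by
    ext w
    simp only [Finset.mem_filter, Finset.mem_univ, true_and]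
    rw [hv]
    constructor
    · intro h2
      constructor
      · intro h3
        have h4 : a ∈ ({a, b} : Finset (Fin k)) ∩ T w := by simp [h3]
        rw [h2] at h4
        simp at h4
      · intro h3
        have h4 : b ∈ ({a, b} : Finset (Fin k)) ∩ T w := by simp [h3]
        rw [h2] at h4
        simp at h4
    · rintro ⟨h2, h3⟩
      ext x
      simp only [Finset.mem_inter, Finset.mem_insert, Finset.mem_singleton, Finset.notMem_empty,
        iff_false, not_and]
      rintro (rfl | rfl)
      · exact h2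
      · exact h3
  rw [h1] at h
  exact h

theorem CB_sum {V : Type} [Fintype V] (q : V → Prop) [DecidablePred q] (a : ℝ) :
    ∑ v, (if q v then a else 0) = a * ((univ.filter q).card : ℝ) := by
  rw [← Finset.sum_filter, Finset.sum_const, nsmul_eq_mul, mul_comm]

theorem stmt_CB (hTG : Stmt_TG) (hLPC : Stmt_LPC) : Stmt_CB := by
  classical
  intro V _ k M T c hK x1 x2 x3 x4 hnd h13 h14 h23 h24 hnx h34 htr
  have hN : (0 : ℝ) < Fintype.card V := by exact_mod_cast hK.pos
  simp only [List.nodup_cons, List.mem_cons, List.not_mem_nil, or_false, not_or,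
    List.nodup_nil, and_true, not_false_eq_true] at hnd
  obtain ⟨⟨n12, n13, n14⟩, ⟨n23, n24⟩, n34⟩ := hnd
  have hp : Function.Injective (![x1, x2, x3, x4] : Fin 4 → Fin k) := by
    intro i j hij
    fin_cases i <;> fin_cases j <;> simp_all
  have hl : ∀ i, 1 ≤ (![12 / 5, 12 / 5, 17 / 10, 17 / 10] : Fin 4 → ℝ) i := by
    intro i
    fin_cases i <;> norm_num
  have hmain := hLPC M T hK.pos hK.sub 4 ![x1, x2, x3, x4]
    ![12 / 5, 12 / 5, 17 / 10, 17 / 10]
    (fun v => (if x1 ∉ T v ∧ x3 ∉ T v then 17 / 10 else 0) +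
      (if x1 ∉ T v ∧ x4 ∉ T v then 17 / 10 else 0) +
      (if x2 ∉ T v ∧ x3 ∉ T v then 17 / 10 else 0) +
      (if x2 ∉ T v ∧ x4 ∉ T v then 17 / 10 else 0) +
      (if T v = {x1, x2} then 1 else 0) +
      (if x3 ∈ T v ∧ x4 ∈ T v ∧ x1 ∉ T v ∧ x2 ∉ T v then 7 / 5 else 0))
    (29 / 5) hp hl ?_
  · refine hmain.trans ?_
    have hs : ∑ v, ((if x1 ∉ T v ∧ x3 ∉ T v then (17 / 10 : ℝ) else 0) +
        (if x1 ∉ T v ∧ x4 ∉ T v then 17 / 10 else 0) +
        (if x2 ∉ T v ∧ x3 ∉ T v then 17 / 10 else 0) +
        (if x2 ∉ T v ∧ x4 ∉ T v then 17 / 10 else 0) +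
        (if T v = {x1, x2} then 1 else 0) +
        (if x3 ∈ T v ∧ x4 ∈ T v ∧ x1 ∉ T v ∧ x2 ∉ T v then 7 / 5 else 0)) ≤
        (39 / 5 * c + 14 / 100) * Fintype.card V := by
      simp only [Finset.sum_add_distrib, CB_sum]
      have a1 := CB_miss M T c hK x1 x3 h13
      have a2 := CB_miss M T c hK x1 x4 h14
      have a3 := CB_miss M T c hK x2 x3 h23
      have a4 := CB_miss M T c hK x2 x4 h24
      have a5 : ((univ.filter (fun v => T v = {x1, x2})).card : ℝ) ≤ c * Fintype.card V := hnx
      have a6 : ((univ.filter (fun v => x3 ∈ T v ∧ x4 ∈ T v ∧ x1 ∉ T v ∧ x2 ∉ T v)).card : ℝ) ≤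
          1 / 10 * Fintype.card V := by
        unfold tr at htr
        rwa [div_le_iff₀ hN] at htr
      linarith
    have hsq : 0 ≤ ∑ x ∈ M.filter (fun x => ∀ i, x ≠ (![x1, x2, x3, x4] : Fin 4 → Fin k) i),
        pr T x ^ 2 := Finset.sum_nonneg (fun x _ => sq_nonneg _)
    have hdiv : (∑ v, ((if x1 ∉ T v ∧ x3 ∉ T v then (17 / 10 : ℝ) else 0) +
        (if x1 ∉ T v ∧ x4 ∉ T v then 17 / 10 else 0) +
        (if x2 ∉ T v ∧ x3 ∉ T v then 17 / 10 else 0) +
        (if x2 ∉ T v ∧ x4 ∉ T v then 17 / 10 else 0) +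
        (if T v = {x1, x2} then 1 else 0) +
        (if x3 ∈ T v ∧ x4 ∈ T v ∧ x1 ∉ T v ∧ x2 ∉ T v then 7 / 5 else 0))) /
          (Fintype.card V : ℝ) ≤ 39 / 5 * c + 14 / 100 := by
      rw [div_le_iff₀ hN]
      exact hs
    have hlogs : ∑ i, ((![12 / 5, 12 / 5, 17 / 10, 17 / 10] : Fin 4 → ℝ) i - 1 -
        Real.log ((![12 / 5, 12 / 5, 17 / 10, 17 / 10] : Fin 4 → ℝ) i)) =
        2 * (7 / 5 - Real.log (12 / 5)) + 2 * (7 / 10 - Real.log (17 / 10)) := by
      simp only [Fin.sum_univ_four, Matrix.cons_val_zero, Matrix.cons_val_one,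
        Matrix.cons_val]
      ring
    rw [hlogs]
    have hL1 := CB_log1
    have hL2 := CB_log2
    have htg := hTG c (2 * (7 / 5 - Real.log (12 / 5)) + 2 * (7 / 10 - Real.log (17 / 10)) -
      29 / 5 + 14 / 100) (39 / 5) hK.cl hK.cu (by norm_num) (by linarith) (by linarith)
    refine le_trans (Real.exp_le_exp.mpr ?_) htg
    linarith
  · intro v
    have hc2 : (2 : ℝ) ≤ ((T v).card : ℝ) := by exact_mod_cast hK.two v
    have e34 : T v ≠ {x3, x4} := fun h => h34 ⟨n34, v, h⟩
    simp only [Fin.sum_univ_four, Matrix.cons_val_zero, Matrix.cons_val_one,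
      Matrix.cons_val]
    by_cases m1 : x1 ∈ T v <;> by_cases m2 : x2 ∈ T v <;> by_cases m3 : x3 ∈ T v <;>
      by_cases m4 : x4 ∈ T v
    · -- 1111
      have h3 := CB_card3 _ _ _ _ n12 n13 n23 m1 m2 m3
      have h5 : (0 : ℝ) ≤ if T v = {x1, x2} then 1 else 0 := by split_ifs <;> norm_num
      simp only [m1, m2, m3, m4, if_true, not_true_eq_false, false_and, and_false, if_false]
      linarith
    · have h3 := CB_card3 _ _ _ _ n12 n13 n23 m1 m2 m3
      have h5 : (0 : ℝ) ≤ if T v = {x1, x2} then 1 else 0 := by split_ifs <;> norm_num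
      simp only [m1, m2, m3, m4, if_true, not_true_eq_false, false_and, and_false, if_false]
      linarith
    · have h3 := CB_card3 _ _ _ _ n12 n14 n24 m1 m2 m4
      have h5 : (0 : ℝ) ≤ if T v = {x1, x2} then 1 else 0 := by split_ifs <;> norm_num
      simp only [m1, m2, m3, m4, if_true, not_true_eq_false, false_and, and_false, if_false]
      linarith
    · rcases CB_card2 _ _ _ n12 m1 m2 with h3 | h3
      · have h5 : (if T v = {x1, x2} then (1 : ℝ) else 0) = 1 := if_pos h3
        rw [h5]
        simp only [m1, m2, m3, m4, if_true, not_true_eq_false, false_and, and_false, if_false]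
        linarith
      · have h5 : (0 : ℝ) ≤ if T v = {x1, x2} then 1 else 0 := by split_ifs <;> norm_num
        simp only [m1, m2, m3, m4, if_true, not_true_eq_false, false_and, and_false, if_false]
        linarith
    · have h3 := CB_card3 _ _ _ _ n13 n14 n34 m1 m3 m4
      have h5 : (0 : ℝ) ≤ if T v = {x1, x2} then 1 else 0 := by split_ifs <;> norm_num
      simp only [m1, m2, m3, m4, if_true, if_false, not_true_eq_false, not_false_eq_true,
        false_and, true_and, and_true, and_false, and_self]
      linarith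
    · have h5 : (0 : ℝ) ≤ if T v = {x1, x2} then 1 else 0 := by split_ifs <;> norm_num
      simp only [m1, m2, m3, m4, if_true, if_false, not_true_eq_false, not_false_eq_true,
        false_and, true_and, and_true, and_false, and_self]
      linarith
    · have h5 : (0 : ℝ) ≤ if T v = {x1, x2} then 1 else 0 := by split_ifs <;> norm_num
      simp only [m1, m2, m3, m4, if_true, if_false, not_true_eq_false, not_false_eq_true,
        false_and, true_and, and_true, and_false, and_self]
      linarith
    · have h5 : (0 : ℝ) ≤ if T v = {x1, x2} then 1 else 0 := by split_ifs <;> norm_num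
      simp only [m1, m2, m3, m4, if_true, if_false, not_true_eq_false, not_false_eq_true,
        false_and, true_and, and_true, and_false, and_self]
      linarith
    · have h3 := CB_card3 _ _ _ _ n23 n24 n34 m2 m3 m4
      have h5 : (0 : ℝ) ≤ if T v = {x1, x2} then 1 else 0 := by split_ifs <;> norm_num
      simp only [m1, m2, m3, m4, if_true, if_false, not_true_eq_false, not_false_eq_true,
        false_and, true_and, and_true, and_false, and_self]
      linarith
    · have h5 : (0 : ℝ) ≤ if T v = {x1, x2} then 1 else 0 := by split_ifs <;> norm_num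
      simp only [m1, m2, m3, m4, if_true, if_false, not_true_eq_false, not_false_eq_true,
        false_and, true_and, and_true, and_false, and_self]
      linarith
    · have h5 : (0 : ℝ) ≤ if T v = {x1, x2} then 1 else 0 := by split_ifs <;> norm_num
      simp only [m1, m2, m3, m4, if_true, if_false, not_true_eq_false, not_false_eq_true,
        false_and, true_and, and_true, and_false, and_self]
      linarith
    · have h5 : (0 : ℝ) ≤ if T v = {x1, x2} then 1 else 0 := by split_ifs <;> norm_num
      simp only [m1, m2, m3, m4, if_true, if_false, not_true_eq_false, not_false_eq_true,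
        false_and, true_and, and_true, and_false, and_self]
      linarith
    · have h3 := (CB_card2 _ _ _ n34 m3 m4).resolve_left e34
      have h5 : (0 : ℝ) ≤ if T v = {x1, x2} then 1 else 0 := by split_ifs <;> norm_num
      simp only [m1, m2, m3, m4, if_true, if_false, not_true_eq_false, not_false_eq_true,
        false_and, true_and, and_true, and_false, and_self]
      linarith
    · have h5 : (0 : ℝ) ≤ if T v = {x1, x2} then 1 else 0 := by split_ifs <;> norm_num
      simp only [m1, m2, m3, m4, if_true, if_false, not_true_eq_false, not_false_eq_true,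
        false_and, true_and, and_true, and_false, and_self]
      linarith
    · have h5 : (0 : ℝ) ≤ if T v = {x1, x2} then 1 else 0 := by split_ifs <;> norm_num
      simp only [m1, m2, m3, m4, if_true, if_false, not_true_eq_false, not_false_eq_true,
        false_and, true_and, and_true, and_false, and_self]
      linarith
    · have h5 : (0 : ℝ) ≤ if T v = {x1, x2} then 1 else 0 := by split_ifs <;> norm_num
      simp only [m1, m2, m3, m4, if_true, if_false, not_true_eq_false, not_false_eq_true,
        false_and, true_and, and_true, and_false, and_self]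
      linarith

end Pool.Agent.Work.MP_1ce445_s9
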