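import Pool.Agent.Work.MP_1ce445_s9.Interface
import Pool.Agent.Work.MP_1ce445_s8.CL7

namespace Pool.Agent.Work.MP_1ce445_s9

theorem stmt_CL7 : Stmt_CL7 := Pool.Agent.Work.MP_1ce445_s8.stmt_CL7

end Pool.Agent.Work.MP_1ce445_s9
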