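import Pool.Agent.Work.MP_1ce445_s9.Interface

namespace Pool.Agent.Work.MP_1ce445_s9

open Finset Pool.Agent.Work.MP_1ce445_co_56 Pool.Agent.Work.MP_1ce445_lin

/-- the number of sets missing both points of a present pair -/
theorem DW_miss {V : Type} [Fintype V] {k : ℕ} {M : Finset (Fin k)} {T : V → Finset (Fin k)}
    {c : ℝ} (hK : Kf M T c) {p q : Fin k} (h : R T p q) :
    ((univ.filter (fun w => p ∉ T w ∧ q ∉ T w)).card : ℝ) ≤ c * Fintype.card V := by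
  obtain ⟨-, v, hv⟩ := h
  have h1 := hK.few v
  have h2 : univ.filter (fun w => p ∉ T w ∧ q ∉ T w) = univ.filter (fun w => T v ∩ T w = ∅) := by
    apply Finset.filter_congr
    intro w _
    rw [hv]
    constructor
    · rintro ⟨h3, h4⟩
      ext z
      simp only [Finset.mem_inter, Finset.mem_insert, Finset.mem_singleton, Finset.notMem_empty,
        iff_false, not_and]
      rintro (rfl | rfl)
      · exact h3
      · exact h4
    · intro h3
      constructor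
      · intro h4
        have h5 : p ∈ ({p, q} : Finset (Fin k)) ∩ T w := by simp [h4]
        rw [h3] at h5
        exact absurd h5 (Finset.notMem_empty _)
      · intro h4
        have h5 : q ∈ ({p, q} : Finset (Fin k)) ∩ T w := by simp [h4]
        rw [h3] at h5
        exact absurd h5 (Finset.notMem_empty _)
  rw [h2]
  exact h1

/-- the weights -/
noncomputable def DW_l : Fin 5 → ℝ := ![23 / 10, 23 / 10, 7 / 5, 7 / 5, 19 / 10]

/-- a set with two elements, one of them `x`, the other one not `b` -/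
theorem DW_two (e : ℝ) (t0 t1 t2 t3 t4 : Prop) [Decidable t0] [Decidable t1] [Decidable t2]
    [Decidable t3] [Decidable t4] (he : 0 ≤ e)
    (h : (t0 ∧ t1 ∧ ¬ t2 ∧ ¬ t3 ∧ ¬ t4 ∧ e = 1) ∨ (t0 ∧ ¬ t1 ∧ t2 ∧ ¬ t3 ∧ ¬ t4) ∨
      (t0 ∧ ¬ t1 ∧ ¬ t2 ∧ ¬ t3 ∧ t4) ∨ (t0 ∧ ¬ t1 ∧ ¬ t2 ∧ ¬ t3 ∧ ¬ t4) ∨
      (¬ t0 ∧ t1 ∧ ¬ t2 ∧ t3 ∧ ¬ t4) ∨ (¬ t0 ∧ t1 ∧ ¬ t2 ∧ ¬ t3 ∧ t4) ∨
      (¬ t0 ∧ t1 ∧ ¬ t2 ∧ ¬ t3 ∧ ¬ t4)) :
    (28 / 5 : ℝ) ≤ 2 +
      ((if t0 then (13 / 10 : ℝ) else 0) + (if t1 then (13 / 10 : ℝ) else 0) +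
        (if t2 then (2 / 5 : ℝ) else 0) + (if t3 then (2 / 5 : ℝ) else 0) +
        (if t4 then (9 / 10 : ℝ) else 0)) +
      ((if ¬ t0 ∧ ¬ t1 then (9 / 10 : ℝ) else 0) +
        (if ¬ t0 ∧ ¬ t4 then (9 / 10 : ℝ) else 0) +
        (if ¬ t1 ∧ ¬ t4 then (9 / 10 : ℝ) else 0) +
        (if ¬ t0 ∧ ¬ t2 then (7 / 5 : ℝ) else 0) +
        (if ¬ t1 ∧ ¬ t3 then (7 / 5 : ℝ) else 0) + e) := by
  rcases h with ⟨h0, h1, h2, h3, h4, h5⟩ | ⟨h0, h1, h2, h3, h4⟩ | ⟨h0, h1, h2, h3, h4⟩ |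
    ⟨h0, h1, h2, h3, h4⟩ | ⟨h0, h1, h2, h3, h4⟩ | ⟨h0, h1, h2, h3, h4⟩ |
    ⟨h0, h1, h2, h3, h4⟩ <;> simp only [h0, h1, h2, h3, h4, if_true, if_false, not_true,
      not_false_eq_true, false_and, and_false, and_self] <;> linarith

/-- a set with at least three elements -/
theorem DW_three (e n : ℝ) (t0 t1 t2 t3 t4 : Prop) [Decidable t0] [Decidable t1] [Decidable t2]
    [Decidable t3] [Decidable t4] (he : 0 ≤ e) (hn : 3 ≤ n) :
    (28 / 5 : ℝ) ≤ n +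
      ((if t0 then (13 / 10 : ℝ) else 0) + (if t1 then (13 / 10 : ℝ) else 0) +
        (if t2 then (2 / 5 : ℝ) else 0) + (if t3 then (2 / 5 : ℝ) else 0) +
        (if t4 then (9 / 10 : ℝ) else 0)) +
      ((if ¬ t0 ∧ ¬ t1 then (9 / 10 : ℝ) else 0) +
        (if ¬ t0 ∧ ¬ t4 then (9 / 10 : ℝ) else 0) +
        (if ¬ t1 ∧ ¬ t4 then (9 / 10 : ℝ) else 0) +
        (if ¬ t0 ∧ ¬ t2 then (7 / 5 : ℝ) else 0) +
        (if ¬ t1 ∧ ¬ t3 then (7 / 5 : ℝ) else 0) + e) := by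
  by_cases h0 : t0 <;> by_cases h1 : t1 <;> by_cases h2 : t2 <;> by_cases h3 : t3 <;>
    by_cases h4 : t4 <;> simp only [h0, h1, h2, h3, h4, if_true, if_false, not_true,
      not_false_eq_true, false_and, and_false, and_self] <;> linarith

theorem DW_pair {k : ℕ} (S : Finset (Fin k)) (x y a b w : Fin k) (hnd : [x, y, a, b, w].Nodup)
    (h2 : S.card = 2) (h : (x ∈ S ∧ b ∉ S) ∨ (y ∈ S ∧ a ∉ S)) :
    (x ∈ S ∧ y ∈ S ∧ a ∉ S ∧ b ∉ S ∧ w ∉ S ∧ (if S = {x, y} then (1 : ℝ) else 0) = 1) ∨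
      (x ∈ S ∧ y ∉ S ∧ a ∈ S ∧ b ∉ S ∧ w ∉ S) ∨
      (x ∈ S ∧ y ∉ S ∧ a ∉ S ∧ b ∉ S ∧ w ∈ S) ∨ (x ∈ S ∧ y ∉ S ∧ a ∉ S ∧ b ∉ S ∧ w ∉ S) ∨
      (x ∉ S ∧ y ∈ S ∧ a ∉ S ∧ b ∈ S ∧ w ∉ S) ∨ (x ∉ S ∧ y ∈ S ∧ a ∉ S ∧ b ∉ S ∧ w ∈ S) ∨
      (x ∉ S ∧ y ∈ S ∧ a ∉ S ∧ b ∉ S ∧ w ∉ S) := by
  simp only [List.nodup_cons, List.mem_cons, List.not_mem_nil, or_false, not_or,
    List.nodup_nil, not_false_eq_true, and_true] at hnd
  obtain ⟨⟨n1, n2, n3, n4⟩, ⟨n5, n6, n7⟩, ⟨n8, n9⟩, n10⟩ := hnd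
  obtain ⟨u, v, huv, rfl⟩ := Finset.card_eq_two.1 h2
  have key : ∀ p q : Fin k, p ≠ q → p ∈ ({u, v} : Finset (Fin k)) → q ∈ ({u, v} : Finset (Fin k)) →
      ∀ r, r ≠ p → r ≠ q → r ∉ ({u, v} : Finset (Fin k)) := by
    intro p q hpq hp hq r hrp hrq hr
    simp only [Finset.mem_insert, Finset.mem_singleton] at hp hq hr
    rcases hp with rfl | rfl <;> rcases hq with rfl | rfl <;> rcases hr with rfl | rfl <;>
      simp_all
  have key2 : ∀ p q : Fin k, p ≠ q → p ∈ ({u, v} : Finset (Fin k)) → q ∈ ({u, v} : Finset (Fin k)) →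
      ({u, v} : Finset (Fin k)) = {p, q} := by
    intro p q hpq hp hq
    simp only [Finset.mem_insert, Finset.mem_singleton] at hp hq
    rcases hp with rfl | rfl <;> rcases hq with rfl | rfl
    · exact absurd rfl hpq
    · rfl
    · exact Finset.pair_comm _ _
    · exact absurd rfl hpq
  by_cases hx : x ∈ ({u, v} : Finset (Fin k))
  · by_cases hy : y ∈ ({u, v} : Finset (Fin k))
    · left
      exact ⟨hx, hy, key x y n1 hx hy a (Ne.symm n2) (Ne.symm n5),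
        key x y n1 hx hy b (Ne.symm n3) (Ne.symm n6),
        key x y n1 hx hy w (Ne.symm n4) (Ne.symm n7), if_pos (key2 x y n1 hx hy)⟩
    · right
      have hb : b ∉ ({u, v} : Finset (Fin k)) := by
        rcases h with ⟨-, h⟩ | ⟨h, -⟩
        · exact h
        · exact absurd h hy
      by_cases ha : a ∈ ({u, v} : Finset (Fin k))
      · left
        exact ⟨hx, hy, ha, hb, key x a n2 hx ha w (Ne.symm n4) (Ne.symm n9)⟩
      · right
        by_cases hw : w ∈ ({u, v} : Finset (Fin k))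
        · left
          exact ⟨hx, hy, ha, hb, hw⟩
        · right
          left
          exact ⟨hx, hy, ha, hb, hw⟩
  · right
    right
    right
    right
    obtain ⟨hy, ha⟩ : y ∈ ({u, v} : Finset (Fin k)) ∧ a ∉ ({u, v} : Finset (Fin k)) := by
      rcases h with ⟨h, -⟩ | h
      · exact absurd h hx
      · exact h
    by_cases hb : b ∈ ({u, v} : Finset (Fin k))
    · left
      exact ⟨hx, hy, ha, hb, key y b n6 hy hb w (Ne.symm n7) (Ne.symm n10)⟩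
    · right
      by_cases hw : w ∈ ({u, v} : Finset (Fin k))
      · left
        exact ⟨hx, hy, ha, hb, hw⟩
      · right
        exact ⟨hx, hy, ha, hb, hw⟩

theorem DW_log : (2782 / 1000 : ℝ) + 1 / 100 ≤
    2 * Real.log (23 / 10) + 2 * Real.log (7 / 5) + Real.log (19 / 10) := by
  have e1 : 2 * Real.log (23 / 10) + 2 * Real.log (7 / 5) + Real.log (19 / 10) =
      Real.log ((23 / 10) ^ 2 * (7 / 5) ^ 2 * (19 / 10)) := by
    rw [Real.log_mul (by norm_num) (by norm_num), Real.log_mul (by norm_num) (by norm_num),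
      Real.log_pow, Real.log_pow]
    norm_num
  have e2 : Real.log ((2 : ℝ) ^ 4 * (6 / 5)) ≤ Real.log ((23 / 10) ^ 2 * (7 / 5) ^ 2 * (19 / 10)) := by
    apply Real.log_le_log (by norm_num)
    norm_num
  have e3 : Real.log ((2 : ℝ) ^ 4 * (6 / 5)) = 4 * Real.log 2 + Real.log (6 / 5) := by
    rw [Real.log_mul (by norm_num) (by norm_num), Real.log_pow]
    norm_num
  have e4 : (1 / 6 : ℝ) ≤ Real.log (6 / 5) := by
    have := Real.one_sub_inv_le_log_of_pos (show (0 : ℝ) < 6 / 5 by norm_num)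
    norm_num at this
    linarith
  have e5 := Real.log_two_gt_d9
  rw [e1]
  rw [e3] at e2
  linarith

theorem stmt_DW (hTG : Stmt_TG) (hLPC : Stmt_LPC) : Stmt_DW := by
  intro V _ k M T c hK hL x y a b w hnd hxy hxa hyb hxw hyw h2
  have hN : 0 < Fintype.card V := hK.pos
  have hNR : (0 : ℝ) < Fintype.card V := by exact_mod_cast hN
  have hnd' := hnd
  simp only [List.nodup_cons, List.mem_cons, List.not_mem_nil, or_false, not_or,
    List.nodup_nil, not_false_eq_true, and_true] at hnd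
  obtain ⟨⟨n1, n2, n3, n4⟩, ⟨n5, n6, n7⟩, ⟨n8, n9⟩, n10⟩ := hnd
  set ph : V → ℝ := fun v => (if x ∉ T v ∧ y ∉ T v then 9 / 10 else 0) +
    (if x ∉ T v ∧ w ∉ T v then 9 / 10 else 0) + (if y ∉ T v ∧ w ∉ T v then 9 / 10 else 0) +
    (if x ∉ T v ∧ a ∉ T v then 7 / 5 else 0) + (if y ∉ T v ∧ b ∉ T v then 7 / 5 else 0) +
    (if T v = {x, y} then 1 else 0) with hph
  have hinj : Function.Injective ![x, y, a, b, w] := by
    intro i j hij
    fin_cases i <;> fin_cases j <;> simp_all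
  have hpt : ∀ v, (28 / 5 : ℝ) ≤ ((T v).card : ℝ) +
      (∑ i, if ![x, y, a, b, w] i ∈ T v then DW_l i - 1 else 0) + ph v := by
    intro v
    have hs : (∑ i, if ![x, y, a, b, w] i ∈ T v then DW_l i - 1 else 0) =
        (if x ∈ T v then (13 / 10 : ℝ) else 0) + (if y ∈ T v then (13 / 10 : ℝ) else 0) +
        (if a ∈ T v then (2 / 5 : ℝ) else 0) + (if b ∈ T v then (2 / 5 : ℝ) else 0) +
        (if w ∈ T v then (9 / 10 : ℝ) else 0) := by
      rw [Fin.sum_univ_five]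
      simp only [DW_l, Matrix.cons_val_zero, Matrix.cons_val_one, Matrix.cons_val]
      norm_num
    rw [hs]
    have e5 : (0 : ℝ) ≤ if T v = {x, y} then 1 else 0 := by split_ifs <;> norm_num
    rcases Nat.lt_or_ge (T v).card 3 with h3 | h3
    · have h4 : (T v).card = 2 := le_antisymm (by omega) (hK.two v)
      have h5 : ((T v).card : ℝ) = 2 := by exact_mod_cast h4
      rw [h5]
      exact DW_two _ _ _ _ _ _ e5 (DW_pair (T v) x y a b w hnd' h4 (h2 v h4))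
    · have h5 : (3 : ℝ) ≤ ((T v).card : ℝ) := by exact_mod_cast h3
      exact DW_three _ _ _ _ _ _ _ e5 h5
  have h := hLPC M T hN hK.sub 5 ![x, y, a, b, w] DW_l ph (28 / 5) hinj
    (by
      intro i
      fin_cases i <;> simp [DW_l] <;> norm_num) hpt
  have hsum : (∑ v, ph v) / Fintype.card V ≤ 13 / 2 * c := by
    rw [div_le_iff₀ hNR]
    have e : ∑ v, ph v = 9 / 10 * ((univ.filter (fun w => x ∉ T w ∧ y ∉ T w)).card : ℝ) +
        9 / 10 * ((univ.filter (fun v => x ∉ T v ∧ w ∉ T v)).card : ℝ) +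
        9 / 10 * ((univ.filter (fun v => y ∉ T v ∧ w ∉ T v)).card : ℝ) +
        7 / 5 * ((univ.filter (fun v => x ∉ T v ∧ a ∉ T v)).card : ℝ) +
        7 / 5 * ((univ.filter (fun v => y ∉ T v ∧ b ∉ T v)).card : ℝ) + (nx T x y : ℝ) := by
      simp only [hph, Finset.sum_add_distrib, nx]
      rw [← Finset.sum_boole, ← Finset.sum_boole, ← Finset.sum_boole, ← Finset.sum_boole,
        ← Finset.sum_boole, ← Finset.sum_boole]
      simp only [Finset.mul_sum, mul_ite, mul_one, mul_zero]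
    rw [e]
    have g1 := DW_miss hK hxy
    have g2 := DW_miss hK hxw
    have g3 := DW_miss hK hyw
    have g4 := DW_miss hK hxa
    have g5 := DW_miss hK hyb
    have g6 := hL x y hxy.1
    linarith
  have hsq : 0 ≤ (∑ x_1 ∈ M.filter (fun z => ∀ i, z ≠ ![x, y, a, b, w] i), pr T x_1 ^ 2) / 2 := by
    positivity
  have hl : ∑ i, (DW_l i - 1 - Real.log (DW_l i)) =
      43 / 10 - (2 * Real.log (23 / 10) + 2 * Real.log (7 / 5) + Real.log (19 / 10)) := by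
    rw [Fin.sum_univ_five]
    show (23 / 10 - 1 - Real.log (23 / 10)) + (23 / 10 - 1 - Real.log (23 / 10)) +
      (7 / 5 - 1 - Real.log (7 / 5)) + (7 / 5 - 1 - Real.log (7 / 5)) +
      (19 / 10 - 1 - Real.log (19 / 10)) = _
    ring
  have hlog := DW_log
  have hfin := hTG c (43 / 10 - (2 * Real.log (23 / 10) + 2 * Real.log (7 / 5) +
    Real.log (19 / 10)) - 28 / 5) (13 / 2) hK.cl hK.cu (by norm_num)
    (by linarith) (by linarith)
  unfold Bd
  refine le_trans h (le_trans ?_ hfin)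
  apply Real.exp_le_exp.mpr
  rw [hl]
  linarith

end Pool.Agent.Work.MP_1ce445_s9
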