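import Pool.Agent.Work.MP_1ce445_s9.Interface

/-! # Block HV: a heavy pair -/

namespace Pool.Agent.Work.MP_1ce445_s9

open Finset Pool.Agent.Work.MP_1ce445_co_56 Pool.Agent.Work.MP_1ce445_lin

lemma HV_pairs {V : Type} [Fintype V] {k : ℕ} (T : V → Finset (Fin k)) (S : Finset (Fin k))
    (B C : Finset V) (m : ℝ)
    (h : ∀ v ∈ B, m ≤ ((C.filter (fun w => ∃ x ∈ S, x ∈ T v ∧ x ∈ T w)).card : ℝ)) :
    (B.card : ℝ) * m ≤ ∑ x ∈ S, (((B.filter (fun v => x ∈ T v)).card : ℝ) *
      ((C.filter (fun w => x ∈ T w)).card : ℝ)) := by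
  classical
  have e1 : ∀ x ∈ S, (((B.filter (fun v => x ∈ T v)).card : ℝ) *
      ((C.filter (fun w => x ∈ T w)).card : ℝ)) =
      ∑ v ∈ B, if x ∈ T v then ((C.filter (fun w => x ∈ T w)).card : ℝ) else 0 := by
    intro x _
    rw [← Finset.sum_filter, Finset.sum_const, nsmul_eq_mul]
  rw [Finset.sum_congr rfl e1, Finset.sum_comm]
  rw [← nsmul_eq_mul, ← Finset.sum_const]
  apply Finset.sum_le_sum
  intro v hv
  refine (h v hv).trans ?_
  rw [← Finset.sum_filter]
  have : (C.filter (fun w => ∃ x ∈ S, x ∈ T v ∧ x ∈ T w)).card ≤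
      ∑ x ∈ S.filter (fun x => x ∈ T v), (C.filter (fun w => x ∈ T w)).card := by
    refine le_trans (Finset.card_le_card ?_) (Finset.card_biUnion_le)
    intro w hw
    simp only [Finset.mem_filter, Finset.mem_biUnion] at hw ⊢
    obtain ⟨hwC, x, hxS, hxv, hxw⟩ := hw
    exact ⟨x, ⟨hxS, hxv⟩, hwC, hxw⟩
  exact_mod_cast this

theorem HV_pr {V : Type} [Fintype V] {k : ℕ} (T : V → Finset (Fin k)) (j : Fin k)
    (hN : 0 < Fintype.card V) :
    pr T j * Fintype.card V = ((univ.filter (fun v => j ∈ T v)).card : ℝ) := by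
  have h : (Fintype.card V : ℝ) ≠ 0 := by exact_mod_cast hN.ne'
  unfold pr
  rw [div_mul_cancel₀ _ h]

theorem HV_five {V : Type} [Fintype V] {k : ℕ} {M : Finset (Fin k)} {T : V → Finset (Fin k)}
    (hN : 0 < Fintype.card V) (hT : ∀ v, T v ⊆ M) :
    ∑ j ∈ M, pr T j * Fintype.card V = ∑ v, ((T v).card : ℝ) := by
  classical
  have h1 : ∑ j ∈ M, (univ.filter (fun v => j ∈ T v)).card = ∑ v, (T v).card := by
    have h2 : ∀ j ∈ M, (univ.filter (fun v => j ∈ T v)).card = ∑ v, if j ∈ T v then 1 else 0 :=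
      fun j _ => Finset.card_filter _ _
    rw [Finset.sum_congr rfl h2, Finset.sum_comm]
    refine Finset.sum_congr rfl fun v _ => ?_
    rw [← Finset.card_filter]
    congr 1
    ext j
    rw [Finset.mem_filter]
    exact ⟨fun hj => hj.2, fun hj => ⟨hT v hj, hj⟩⟩
  have h3 : ∑ j ∈ M, pr T j * Fintype.card V =
      ((∑ j ∈ M, (univ.filter (fun v => j ∈ T v)).card : ℕ) : ℝ) := by
    rw [Nat.cast_sum]
    exact Finset.sum_congr rfl fun j _ => HV_pr T j hN
  rw [h3, h1, Nat.cast_sum]

theorem HV_p01 {V : Type} [Fintype V] {k : ℕ} (T : V → Finset (Fin k)) (j : Fin k)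
    (hN : 0 < Fintype.card V) : 0 ≤ pr T j ∧ pr T j ≤ 1 := by
  have hN' : (0 : ℝ) < Fintype.card V := by exact_mod_cast hN
  constructor
  · unfold pr
    positivity
  · have h2 : (univ.filter (fun v => j ∈ T v)).card ≤ Fintype.card V := by
      rw [← Finset.card_univ]
      exact Finset.card_le_card (Finset.filter_subset _ _)
    have h3 : ((univ.filter (fun v => j ∈ T v)).card : ℝ) ≤ Fintype.card V := by
      exact_mod_cast h2
    unfold pr
    rw [div_le_one hN']
    exact h3

theorem HV_prod {k : ℕ} (hTA : Stmt_TA) (A : Finset (Fin k)) (p : Fin k → ℝ)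
    (h0 : ∀ j, 0 ≤ p j) (h1 : ∀ j, p j ≤ 1) :
    ∏ j ∈ A, (1 - p j) ≤
      Real.exp (-(8883 / 10000 * (∑ j ∈ A, p j) + 1943 / 2000 * (∑ j ∈ A, p j ^ 2))) := by
  have h2 : ∏ j ∈ A, (1 - p j) ≤
      ∏ j ∈ A, Real.exp (-(8883 / 10000 * p j + 1943 / 2000 * p j ^ 2)) := by
    refine Finset.prod_le_prod (fun j _ => ?_) (fun j _ => hTA (p j) (h0 j) (h1 j))
    have := h1 j
    linarith
  refine h2.trans (le_of_eq ?_)
  rw [← Real.exp_sum]
  congr 1
  rw [Finset.sum_neg_distrib, Finset.sum_add_distrib, ← Finset.mul_sum, ← Finset.mul_sum]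

/-- the pointwise inequality -/
lemma HV_point {k : ℕ} (x y : Fin k) (S : Finset (Fin k)) (h2 : 2 ≤ S.card)
    (h : x ∈ S ∨ y ∈ S) :
    2 * (if x ∉ S then (1 : ℝ) else 0) + 2 * (if y ∉ S then (1 : ℝ) else 0) -
      (if S.card = 2 ∧ x ∈ S ∧ y ∉ S then (1 : ℝ) else 0) -
      (if S.card = 2 ∧ y ∈ S ∧ x ∉ S then (1 : ℝ) else 0) ≤
      (S.card : ℝ) - (if x ∈ S then (1 : ℝ) else 0) - (if y ∈ S then (1 : ℝ) else 0) := by
  have h2' : (2 : ℝ) ≤ S.card := by exact_mod_cast h2
  by_cases hc : S.card = 2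
  · have hc' : (S.card : ℝ) = 2 := by exact_mod_cast hc
    by_cases hx : x ∈ S <;> by_cases hy : y ∈ S
    · simp [hx, hy, hc]
      norm_num
    · simp [hx, hy, hc]
    · simp [hx, hy, hc]
    · exact absurd h (by simp [hx, hy])
  · have h3 : (3 : ℝ) ≤ S.card := by
      have : 3 ≤ S.card := by omega
      exact_mod_cast this
    by_cases hx : x ∈ S <;> by_cases hy : y ∈ S
    · simp [hx, hy, hc]; linarith
    · simp [hx, hy, hc]; linarith
    · simp [hx, hy, hc]; linarith
    · exact absurd h (by simp [hx, hy])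

/-- the second moment -/
lemma HV_sq {V : Type} [Fintype V] {k : ℕ} (M : Finset (Fin k)) (T : V → Finset (Fin k)) (c : ℝ)
    (hS : Kf M T c) (x y : Fin k)
    (hxy : ∀ v, x ∈ T v ∨ y ∈ T v) :
    4 * (1 - pr T x) * ((1 - pr T y) - c) ≤ ∑ j ∈ (M.erase x).erase y, pr T j ^ 2 := by
  classical
  have hN : (0 : ℝ) < Fintype.card V := by exact_mod_cast hS.pos
  set B : Finset V := univ.filter (fun v => x ∉ T v) with hB
  set G : Finset V := univ.filter (fun v => y ∉ T v) with hG
  have hcB : (B.card : ℝ) = (1 - pr T x) * Fintype.card V := by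
    have h1 := Finset.card_filter_add_card_filter_not (s := (univ : Finset V)) (fun v => x ∈ T v)
    rw [Finset.card_univ] at h1
    have h2 : ((univ.filter (fun v => x ∈ T v)).card : ℝ) + B.card = Fintype.card V := by
      exact_mod_cast h1
    have h3 := HV_pr T x hS.pos
    linarith
  have hcG : (G.card : ℝ) = (1 - pr T y) * Fintype.card V := by
    have h1 := Finset.card_filter_add_card_filter_not (s := (univ : Finset V)) (fun v => y ∈ T v)
    rw [Finset.card_univ] at h1
    have h2 : ((univ.filter (fun v => y ∈ T v)).card : ℝ) + G.card = Fintype.card V := by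
      exact_mod_cast h1
    have h3 := HV_pr T y hS.pos
    linarith
  have hpairs := HV_pairs T ((M.erase x).erase y) B G ((G.card : ℝ) - c * Fintype.card V) (by
    intro v hv
    have hvx : x ∉ T v := by simpa [hB] using hv
    have h1 := hS.few v
    have hsub : G ⊆ (G.filter (fun w => ∃ j ∈ (M.erase x).erase y, j ∈ T v ∧ j ∈ T w)) ∪
        (univ.filter (fun w => T v ∩ T w = ∅)) := by
      intro w hw
      have hwy : y ∉ T w := by simpa [hG] using hw
      rw [Finset.mem_union]
      by_cases he : T v ∩ T w = ∅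
      · right
        simp [he]
      · left
        obtain ⟨j, hj⟩ := Finset.nonempty_iff_ne_empty.mpr he
        rw [Finset.mem_inter] at hj
        rw [Finset.mem_filter]
        refine ⟨hw, j, ?_, hj.1, hj.2⟩
        rw [Finset.mem_erase, Finset.mem_erase]
        refine ⟨?_, ?_, hS.sub v hj.1⟩
        · rintro rfl
          exact hwy hj.2
        · rintro rfl
          exact hvx hj.1
    have h2 := (Finset.card_le_card hsub).trans (Finset.card_union_le _ _)
    have h3 : (G.card : ℝ) ≤
        ((G.filter (fun w => ∃ j ∈ (M.erase x).erase y, j ∈ T v ∧ j ∈ T w)).card : ℝ) +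
        ((univ.filter (fun w => T v ∩ T w = ∅)).card : ℝ) := by exact_mod_cast h2
    linarith)
  have hpt : ∀ j ∈ (M.erase x).erase y, 4 * (((B.filter (fun v => j ∈ T v)).card : ℝ) *
      ((G.filter (fun w => j ∈ T w)).card : ℝ)) ≤ pr T j ^ 2 * (Fintype.card V : ℝ) ^ 2 := by
    intro j _
    have h1 : (B.filter (fun v => j ∈ T v)).card + (G.filter (fun v => j ∈ T v)).card ≤
        (univ.filter (fun v => j ∈ T v)).card := by
      rw [← Finset.card_union_of_disjoint]
      · apply Finset.card_le_card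
        intro v hv
        simp only [Finset.mem_union, Finset.mem_filter, Finset.mem_univ, true_and] at hv ⊢
        rcases hv with h | h
        · exact h.2
        · exact h.2
      · rw [Finset.disjoint_left]
        intro v hv hv'
        simp only [hB, hG, Finset.mem_filter, Finset.mem_univ, true_and] at hv hv'
        rcases hxy v with h | h
        · exact hv.1 h
        · exact hv'.1 h
    have h2 : ((B.filter (fun v => j ∈ T v)).card : ℝ) + ((G.filter (fun v => j ∈ T v)).card : ℝ) ≤
        pr T j * Fintype.card V := by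
      rw [HV_pr T j hS.pos]
      exact_mod_cast h1
    have a0 : (0 : ℝ) ≤ ((B.filter (fun v => j ∈ T v)).card : ℝ) := Nat.cast_nonneg _
    have g0 : (0 : ℝ) ≤ ((G.filter (fun v => j ∈ T v)).card : ℝ) := Nat.cast_nonneg _
    have h3 : pr T j ^ 2 * (Fintype.card V : ℝ) ^ 2 = (pr T j * Fintype.card V) ^ 2 := by ring
    rw [h3]
    nlinarith [sq_nonneg (((B.filter (fun v => j ∈ T v)).card : ℝ) -
      ((G.filter (fun v => j ∈ T v)).card : ℝ))]
  have hsum : 4 * ((B.card : ℝ) * ((G.card : ℝ) - c * Fintype.card V)) ≤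
      (∑ j ∈ (M.erase x).erase y, pr T j ^ 2) * (Fintype.card V : ℝ) ^ 2 := by
    rw [Finset.sum_mul]
    refine le_trans ?_ (Finset.sum_le_sum hpt)
    rw [← Finset.mul_sum]
    linarith
  rw [hcB, hcG] at hsum
  have e : 4 * ((1 - pr T x) * (Fintype.card V : ℝ) *
      ((1 - pr T y) * (Fintype.card V : ℝ) - c * Fintype.card V)) =
      (4 * (1 - pr T x) * ((1 - pr T y) - c)) * (Fintype.card V : ℝ) ^ 2 := by ring
  rw [e] at hsum
  exact le_of_mul_le_mul_right hsum (by positivity)

theorem stmt_HV (hTA : Stmt_TA) (hHVR : Stmt_HVR) : Stmt_HV := by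
  classical
  intro V _ k M T c hS x y hxy hheavy hcase
  have hN : (0 : ℝ) < Fintype.card V := by exact_mod_cast hS.pos
  have hp : ∀ j, 0 ≤ pr T j ∧ pr T j ≤ 1 := fun j => HV_p01 T j hS.pos
  have hc3 := hS.cl
  have hc2 := hS.cu
  have hall : ∀ v, x ∈ T v ∨ y ∈ T v := by
    intro w
    by_contra hcon
    rw [not_or] at hcon
    have h1 := hS.few w
    have h2 : (univ.filter (fun v => T v = {x, y})) ⊆ univ.filter (fun v => T w ∩ T v = ∅) := by
      intro v hv
      simp only [Finset.mem_filter, Finset.mem_univ, true_and] at hv ⊢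
      rw [hv]
      ext z
      simp only [Finset.mem_inter, Finset.mem_insert, Finset.mem_singleton, Finset.notMem_empty,
        iff_false, not_and]
      intro hz
      rintro (rfl | rfl)
      · exact hcon.1 hz
      · exact hcon.2 hz
    have h3 : (nx T x y : ℝ) ≤ ((univ.filter (fun v => T w ∩ T v = ∅)).card : ℝ) := by
      unfold nx
      exact_mod_cast Finset.card_le_card h2
    linarith
  have hex : ∃ v, T v = {x, y} := by
    have h1 : (0 : ℝ) < nx T x y := lt_of_le_of_lt (mul_nonneg (by linarith) hN.le) hheavy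
    have h2 : 0 < nx T x y := by exact_mod_cast h1
    unfold nx at h2
    obtain ⟨v, hv⟩ := Finset.card_pos.mp h2
    exact ⟨v, by simpa using hv⟩
  obtain ⟨u, hu⟩ := hex
  have hxM : x ∈ M := by
    have := hS.sub u
    rw [hu] at this
    exact this (by simp)
  have hyM : y ∈ M := by
    have := hS.sub u
    rw [hu] at this
    exact this (by simp)
  have hyM' : y ∈ M.erase x := Finset.mem_erase.mpr ⟨hxy.symm, hyM⟩
  -- sums
  have hS2a := HV_sq M T c hS x y hall
  have hS2b := HV_sq M T c hS y x (fun v => (hall v).symm)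
  rw [Finset.erase_right_comm] at hS2b
  set S : ℝ := ∑ j ∈ (M.erase x).erase y, pr T j with hSdef
  set S2 : ℝ := ∑ j ∈ (M.erase x).erase y, pr T j ^ 2 with hS2def
  have hsplit : ∀ f : Fin k → ℝ, ∑ j ∈ M, f j = f x + (f y + ∑ j ∈ (M.erase x).erase y, f j) := by
    intro f
    rw [← Finset.add_sum_erase M f hxM, ← Finset.add_sum_erase (M.erase x) f hyM']
  have hfive := HV_five (M := M) hS.pos hS.sub
  rw [hsplit, ← Finset.sum_mul] at hfive
  have hcB : ((univ.filter (fun v => x ∉ T v)).card : ℝ) = (1 - pr T x) * Fintype.card V := by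
    have h1 := Finset.card_filter_add_card_filter_not (s := (univ : Finset V)) (fun v => x ∈ T v)
    rw [Finset.card_univ] at h1
    have h2 : ((univ.filter (fun v => x ∈ T v)).card : ℝ) +
        ((univ.filter (fun v => x ∉ T v)).card : ℝ) = Fintype.card V := by
      exact_mod_cast h1
    have h3 := HV_pr T x hS.pos
    linarith
  have hcG : ((univ.filter (fun v => y ∉ T v)).card : ℝ) = (1 - pr T y) * Fintype.card V := by
    have h1 := Finset.card_filter_add_card_filter_not (s := (univ : Finset V)) (fun v => y ∈ T v)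
    rw [Finset.card_univ] at h1
    have h2 : ((univ.filter (fun v => y ∈ T v)).card : ℝ) +
        ((univ.filter (fun v => y ∉ T v)).card : ℝ) = Fintype.card V := by
      exact_mod_cast h1
    have h3 := HV_pr T y hS.pos
    linarith
  have hpw1 : pw T x y * Fintype.card V =
      ((univ.filter (fun v => (T v).card = 2 ∧ x ∈ T v ∧ y ∉ T v)).card : ℝ) := by
    unfold pw
    rw [div_mul_cancel₀ _ hN.ne']
  have hpw2 : pw T y x * Fintype.card V =
      ((univ.filter (fun v => (T v).card = 2 ∧ y ∈ T v ∧ x ∉ T v)).card : ℝ) := by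
    unfold pw
    rw [div_mul_cancel₀ _ hN.ne']
  have hcount : ∀ (P : V → Prop) [DecidablePred P],
      ∑ v : V, (if P v then (1 : ℝ) else 0) = ((univ.filter P).card : ℝ) := by
    intro P _
    rw [← Finset.sum_filter, Finset.sum_const, nsmul_eq_mul, mul_one]
  have hpoint := Finset.sum_le_sum (s := (univ : Finset V))
    (fun v _ => HV_point x y (T v) (hS.two v) (hall v))
  rw [Finset.sum_sub_distrib, Finset.sum_sub_distrib, Finset.sum_add_distrib, ← Finset.mul_sum,
    ← Finset.mul_sum, Finset.sum_sub_distrib, Finset.sum_sub_distrib, hcount, hcount, hcount,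
    hcount, hcount, hcount, hcB, hcG, ← hpw1, ← hpw2, ← HV_pr T x hS.pos,
    ← HV_pr T y hS.pos] at hpoint
  have hSlow : 2 * (1 - pr T x) + 2 * (1 - pr T y) - pw T x y - pw T y x ≤ S := by
    have : (2 * (1 - pr T x) + 2 * (1 - pr T y) - pw T x y - pw T y x) * (Fintype.card V : ℝ) ≤
        S * Fintype.card V := by
      nlinarith [hpoint, hfive]
    exact le_of_mul_le_mul_right this hN
  have hpwx : pw T x y ≤ 1 - pr T y := by
    have h1 : ((univ.filter (fun v => (T v).card = 2 ∧ x ∈ T v ∧ y ∉ T v)).card : ℝ) ≤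
        ((univ.filter (fun v => y ∉ T v)).card : ℝ) := by
      have : (univ.filter (fun v => (T v).card = 2 ∧ x ∈ T v ∧ y ∉ T v)) ⊆
          univ.filter (fun v => y ∉ T v) := by
        intro v hv
        simp only [Finset.mem_filter, Finset.mem_univ, true_and] at hv ⊢
        exact hv.2.2
      exact_mod_cast Finset.card_le_card this
    rw [← hpw1, hcG] at h1
    exact le_of_mul_le_mul_right h1 hN
  have hpwy : pw T y x ≤ 1 - pr T x := by
    have h1 : ((univ.filter (fun v => (T v).card = 2 ∧ y ∈ T v ∧ x ∉ T v)).card : ℝ) ≤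
        ((univ.filter (fun v => x ∉ T v)).card : ℝ) := by
      have : (univ.filter (fun v => (T v).card = 2 ∧ y ∈ T v ∧ x ∉ T v)) ⊆
          univ.filter (fun v => x ∉ T v) := by
        intro v hv
        simp only [Finset.mem_filter, Finset.mem_univ, true_and] at hv ⊢
        exact hv.2.2
      exact_mod_cast Finset.card_le_card this
    rw [← hpw2, hcB] at h1
    exact le_of_mul_le_mul_right h1 hN
  have hbg : (1 - pr T x) + (1 - pr T y) ≤ 1 := by
    have h1 : ((univ.filter (fun v => x ∉ T v)).card : ℝ) +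
        ((univ.filter (fun v => y ∉ T v)).card : ℝ) ≤ Fintype.card V := by
      have h2 : (univ.filter (fun v => x ∉ T v)).card + (univ.filter (fun v => y ∉ T v)).card ≤
          Fintype.card V := by
        rw [← Finset.card_union_of_disjoint, ← Finset.card_univ]
        · exact Finset.card_le_card (Finset.subset_univ _)
        · rw [Finset.disjoint_left]
          intro v hv hv'
          simp only [Finset.mem_filter, Finset.mem_univ, true_and] at hv hv'
          rcases hall v with h | h
          · exact hv h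
          · exact hv' h
      exact_mod_cast h2
    rw [hcB, hcG] at h1
    have h3 : ((1 - pr T x) + (1 - pr T y)) * (Fintype.card V : ℝ) ≤ 1 * Fintype.card V := by
      linarith
    exact le_of_mul_le_mul_right h3 hN
  have hS0 : 0 ≤ S := Finset.sum_nonneg fun j _ => (hp j).1
  have hS20 : 0 ≤ S2 := Finset.sum_nonneg fun j _ => sq_nonneg _
  have hb0 : 0 ≤ 1 - pr T x := by linarith [(hp x).2]
  have hg0 : 0 ≤ 1 - pr T y := by linarith [(hp y).2]
  have hfin := hHVR c (1 - pr T x) (1 - pr T y) S S2 hc3 hc2 hb0 hg0 hbg hS0 hS20 hS2a hS2b (by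
    rcases hcase with h | h | h
    · left; linarith
    · right; right; linarith
    · right; left; linarith)
  unfold Bd
  refine le_trans ?_ hfin
  rw [← Finset.mul_prod_erase M _ hxM, ← Finset.mul_prod_erase (M.erase x) _ hyM', ← mul_assoc]
  exact mul_le_mul_of_nonneg_left (HV_prod hTA _ _ (fun j => (hp j).1) (fun j => (hp j).2))
    (mul_nonneg hb0 hg0)

end Pool.Agent.Work.MP_1ce445_s9
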