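import Pool.Agent.Work.MP_1ce445_s9.Interface

/-! Block K4: all six pairs of four points are present (helper70). -/

namespace Pool.Agent.Work.MP_1ce445_s9

open Finset Pool.Agent.Work.MP_1ce445_co_56 Pool.Agent.Work.MP_1ce445_lin

theorem K4_pr {V : Type} [Fintype V] {k : ℕ} (T : V → Finset (Fin k))
    (hN : 0 < Fintype.card V) (x : Fin k) : 0 ≤ pr T x ∧ pr T x ≤ 1 := by
  have hN' : (0 : ℝ) < Fintype.card V := Nat.cast_pos.2 hN
  refine ⟨div_nonneg (Nat.cast_nonneg _) hN'.le, ?_⟩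
  rw [pr, div_le_one hN']
  exact Nat.cast_le.2 (Finset.card_le_univ _)

theorem K4_amgm (X Y Z W s : ℝ) (hX : 0 ≤ X) (hY : 0 ≤ Y) (hZ : 0 ≤ Z) (hW : 0 ≤ W)
    (h : X + Y + Z + W ≤ s) : X * Y * (Z * W) ≤ (s / 4) ^ 4 := by
  have h1 : X * Y ≤ ((X + Y) / 2) ^ 2 := by nlinarith [sq_nonneg (X - Y)]
  have h2 : Z * W ≤ ((Z + W) / 2) ^ 2 := by nlinarith [sq_nonneg (Z - W)]
  have h3 : X * Y * (Z * W) ≤ ((X + Y) / 2) ^ 2 * ((Z + W) / 2) ^ 2 :=
    mul_le_mul h1 h2 (mul_nonneg hZ hW) (sq_nonneg _)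
  have h4 : (X + Y) / 2 * ((Z + W) / 2) ≤ ((X + Y + Z + W) / 4) ^ 2 := by
    nlinarith [sq_nonneg ((X + Y) - (Z + W))]
  have h5 : 0 ≤ (X + Y) / 2 * ((Z + W) / 2) := by positivity
  have h6 : ((X + Y + Z + W) / 4) ^ 2 ≤ (s / 4) ^ 2 :=
    pow_le_pow_left₀ (by positivity) (by linarith) 2
  calc X * Y * (Z * W) ≤ ((X + Y) / 2) ^ 2 * ((Z + W) / 2) ^ 2 := h3
    _ = ((X + Y) / 2 * ((Z + W) / 2)) ^ 2 := by ring
    _ ≤ ((s / 4) ^ 2) ^ 2 := pow_le_pow_left₀ h5 (h4.trans h6) 2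
    _ = (s / 4) ^ 4 := by ring

theorem K4_miss {V : Type} [Fintype V] {k : ℕ} {M : Finset (Fin k)} {T : V → Finset (Fin k)}
    {c : ℝ} (h : Kf M T c) {a b : Fin k} (hab : R T a b) :
    ((univ.filter (fun w => a ∉ T w ∧ b ∉ T w)).card : ℝ) ≤ c * Fintype.card V := by
  obtain ⟨v, hv⟩ := hab.2
  refine le_trans (Nat.cast_le.2 (Finset.card_le_card fun w hw => ?_)) (h.few v)
  rw [mem_filter] at hw ⊢
  refine ⟨mem_univ _, ?_⟩
  rw [hv, Finset.eq_empty_iff_forall_notMem]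
  intro x hx
  rw [mem_inter, mem_insert, mem_singleton] at hx
  rcases hx with ⟨h3 | h3, h4⟩
  · exact hw.2.1 (h3 ▸ h4)
  · exact hw.2.2 (h3 ▸ h4)

theorem stmt_K4 : Stmt_K4 := by
  intro V _ k M T c hS a b d f hnd r13 r14 r23 r24 r12 r34
  simp only [List.nodup_cons, List.mem_cons, List.not_mem_nil, or_false, not_or,
    List.nodup_nil, and_true, not_false_eq_true] at hnd
  obtain ⟨⟨hab, had, haf⟩, ⟨hbd, hbf⟩, hdf⟩ := hnd
  have hN' : (0 : ℝ) < Fintype.card V := Nat.cast_pos.2 hS.pos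
  have hcount : 3 * Fintype.card V ≤ ((univ.filter (fun v => a ∈ T v)).card +
      (univ.filter (fun v => b ∈ T v)).card + (univ.filter (fun v => d ∈ T v)).card +
      (univ.filter (fun v => f ∈ T v)).card) +
      ((univ.filter (fun v => a ∉ T v ∧ b ∉ T v)).card +
      (univ.filter (fun v => a ∉ T v ∧ d ∉ T v)).card +
      (univ.filter (fun v => a ∉ T v ∧ f ∉ T v)).card +
      (univ.filter (fun v => b ∉ T v ∧ d ∉ T v)).card +
      (univ.filter (fun v => b ∉ T v ∧ f ∉ T v)).card +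
      (univ.filter (fun v => d ∉ T v ∧ f ∉ T v)).card) := by
    simp only [Finset.card_filter, ← Finset.sum_add_distrib]
    calc 3 * Fintype.card V = ∑ _w : V, 3 := by
          rw [Finset.sum_const, Finset.card_univ, smul_eq_mul, mul_comm]
      _ ≤ _ := Finset.sum_le_sum fun w _ => by
          by_cases ha : a ∈ T w <;> by_cases hb : b ∈ T w <;> by_cases hd : d ∈ T w <;>
            by_cases hf : f ∈ T w <;> simp [ha, hb, hd, hf]
  have hcount' : (3 : ℝ) * Fintype.card V ≤ (((univ.filter (fun v => a ∈ T v)).card : ℝ) +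
      ((univ.filter (fun v => b ∈ T v)).card : ℝ) + ((univ.filter (fun v => d ∈ T v)).card : ℝ) +
      ((univ.filter (fun v => f ∈ T v)).card : ℝ)) +
      (((univ.filter (fun v => a ∉ T v ∧ b ∉ T v)).card : ℝ) +
      ((univ.filter (fun v => a ∉ T v ∧ d ∉ T v)).card : ℝ) +
      ((univ.filter (fun v => a ∉ T v ∧ f ∉ T v)).card : ℝ) +
      ((univ.filter (fun v => b ∉ T v ∧ d ∉ T v)).card : ℝ) +
      ((univ.filter (fun v => b ∉ T v ∧ f ∉ T v)).card : ℝ) +
      ((univ.filter (fun v => d ∉ T v ∧ f ∉ T v)).card : ℝ)) := by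
    exact_mod_cast hcount
  have m1 := K4_miss hS r12
  have m2 := K4_miss hS r13
  have m3 := K4_miss hS r14
  have m4 := K4_miss hS r23
  have m5 := K4_miss hS r24
  have m6 := K4_miss hS r34
  have hsum : 3 - 6 * c ≤ pr T a + pr T b + pr T d + pr T f := by
    unfold pr
    rw [← add_div, ← add_div, ← add_div, le_div_iff₀ hN']
    nlinarith
  obtain ⟨w, hw⟩ := r12.2
  obtain ⟨w', hw'⟩ := r34.2
  have haM : a ∈ M := hS.sub w (by rw [hw]; simp)
  have hbM : b ∈ M := hS.sub w (by rw [hw]; simp)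
  have hdM : d ∈ M := hS.sub w' (by rw [hw']; simp)
  have hfM : f ∈ M := hS.sub w' (by rw [hw']; simp)
  have hsub : ({a, b, d, f} : Finset (Fin k)) ⊆ M := by
    intro x hx
    simp only [mem_insert, mem_singleton] at hx
    rcases hx with rfl | rfl | rfl | rfl <;> assumption
  have hp := K4_pr T hS.pos
  unfold Bd
  rw [← Finset.prod_sdiff hsub]
  have hA : ∏ x ∈ ({a, b, d, f} : Finset (Fin k)), (1 - pr T x) =
      (1 - pr T a) * (1 - pr T b) * ((1 - pr T d) * (1 - pr T f)) := by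
    rw [Finset.prod_insert (by simp [hab, had, haf]), Finset.prod_insert (by simp [hbd, hbf]),
      Finset.prod_insert (by simp [hdf]), Finset.prod_singleton]
    ring
  have hA1 : (1 - pr T a) * (1 - pr T b) * ((1 - pr T d) * (1 - pr T f)) ≤
      ((1 + 6 * c) / 4) ^ 4 :=
    K4_amgm _ _ _ _ _ (by linarith [(hp a).2]) (by linarith [(hp b).2]) (by linarith [(hp d).2])
      (by linarith [(hp f).2]) (by linarith)
  have hA0 : 0 ≤ (1 - pr T a) * (1 - pr T b) * ((1 - pr T d) * (1 - pr T f)) :=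
    mul_nonneg (mul_nonneg (by linarith [(hp a).2]) (by linarith [(hp b).2]))
      (mul_nonneg (by linarith [(hp d).2]) (by linarith [(hp f).2]))
  have hB : ∏ x ∈ M \ {a, b, d, f}, (1 - pr T x) ≤ 1 :=
    Finset.prod_le_one (fun x _ => by linarith [(hp x).2]) (fun x _ => by linarith [(hp x).1])
  rw [hA]
  calc (∏ x ∈ M \ {a, b, d, f}, (1 - pr T x)) *
        ((1 - pr T a) * (1 - pr T b) * ((1 - pr T d) * (1 - pr T f)))
      ≤ 1 * ((1 - pr T a) * (1 - pr T b) * ((1 - pr T d) * (1 - pr T f))) :=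
        mul_le_mul_of_nonneg_right hB hA0
    _ ≤ ((1 + 6 * c) / 4) ^ 4 := by rw [one_mul]; exact hA1
    _ ≤ BB c := (le_max_right _ _).trans (le_max_right _ _)

end Pool.Agent.Work.MP_1ce445_s9
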