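import Pool.Agent.Work.MP_1ce445_s9.Interface

/-!
# Block LPC (MP_1ce445_co, theorem S7): the linear programming bound
-/

namespace Pool.Agent.Work.MP_1ce445_s9

open Finset Pool.Agent.Work.MP_1ce445_co_56 Pool.Agent.Work.MP_1ce445_lin

/-- the weights -/
noncomputable def LPC_lam {k m : ℕ} (p : Fin m → Fin k) (l : Fin m → ℝ) (x : Fin k) : ℝ :=
  1 + ∑ i, if x = p i then l i - 1 else 0

theorem LPC_lam_one_le {k m : ℕ} (p : Fin m → Fin k) (l : Fin m → ℝ) (hl : ∀ i, 1 ≤ l i)
    (x : Fin k) : 1 ≤ LPC_lam p l x := by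
  unfold LPC_lam
  have h : 0 ≤ ∑ i, if x = p i then l i - 1 else 0 := by
    apply Finset.sum_nonneg
    intro i _
    split_ifs
    · linarith [hl i]
    · exact le_refl _
  linarith

theorem LPC_lam_p {k m : ℕ} (p : Fin m → Fin k) (l : Fin m → ℝ) (hp : Function.Injective p)
    (i : Fin m) : LPC_lam p l (p i) = l i := by
  unfold LPC_lam
  have h : ∀ j, (if p i = p j then l j - 1 else 0) = if i = j then l j - 1 else 0 := by
    intro j
    by_cases hij : i = j
    · rw [if_pos hij, if_pos (by rw [hij])]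
    · rw [if_neg hij, if_neg (fun h => hij (hp h))]
  rw [Finset.sum_congr rfl (fun j _ => h j), Finset.sum_ite_eq]
  simp

theorem LPC_lam_out {k m : ℕ} (p : Fin m → Fin k) (l : Fin m → ℝ) (x : Fin k)
    (hx : ∀ i, x ≠ p i) : LPC_lam p l x = 1 := by
  unfold LPC_lam
  rw [Finset.sum_eq_zero (fun i _ => if_neg (hx i))]
  simp

theorem LPC_sum {k m : ℕ} (p : Fin m → Fin k) (l : Fin m → ℝ) (S : Finset (Fin k)) :
    ∑ x ∈ S, LPC_lam p l x = (S.card : ℝ) + ∑ i, if p i ∈ S then l i - 1 else 0 := by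
  unfold LPC_lam
  rw [Finset.sum_add_distrib, Finset.sum_const, nsmul_eq_mul, mul_one, Finset.sum_comm]
  congr 1
  apply Finset.sum_congr rfl
  intro i _
  rw [Finset.sum_ite_eq']

theorem LPC_g {k m : ℕ} (p : Fin m → Fin k) (l : Fin m → ℝ) (hl : ∀ i, 1 ≤ l i)
    (hp : Function.Injective p) (M : Finset (Fin k)) :
    ∑ x ∈ M, (LPC_lam p l x - 1 - Real.log (LPC_lam p l x)) ≤
      ∑ i, (l i - 1 - Real.log (l i)) := by
  classical
  have hnn : ∀ x, 0 ≤ LPC_lam p l x - 1 - Real.log (LPC_lam p l x) := by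
    intro x
    have h1 := LPC_lam_one_le p l hl x
    have h2 := Real.log_le_sub_one_of_pos (show 0 < LPC_lam p l x by linarith)
    linarith
  have h1 : ∑ x ∈ M, (LPC_lam p l x - 1 - Real.log (LPC_lam p l x)) ≤
      ∑ x, (LPC_lam p l x - 1 - Real.log (LPC_lam p l x)) :=
    Finset.sum_le_sum_of_subset_of_nonneg (Finset.subset_univ M) (fun x _ _ => hnn x)
  have h2 : ∑ x ∈ univ.image p, (LPC_lam p l x - 1 - Real.log (LPC_lam p l x)) =
      ∑ x, (LPC_lam p l x - 1 - Real.log (LPC_lam p l x)) := by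
    apply Finset.sum_subset (Finset.subset_univ _)
    intro x _ hx
    rw [LPC_lam_out p l x]
    · simp
    · intro i hi
      apply hx
      rw [Finset.mem_image]
      exact ⟨i, Finset.mem_univ i, hi.symm⟩
  have h3 : ∑ x ∈ univ.image p, (LPC_lam p l x - 1 - Real.log (LPC_lam p l x)) =
      ∑ i, (l i - 1 - Real.log (l i)) := by
    rw [Finset.sum_image (fun x _ y _ h => hp h)]
    apply Finset.sum_congr rfl
    intro i _
    rw [LPC_lam_p p l hp]
  linarith

theorem LPC_factor (l p : ℝ) (hl : 1 ≤ l) : 1 - p ≤ Real.exp (l - 1 - Real.log l - l * p) := by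
  have hl0 : 0 < l := by linarith
  have h1 := Real.add_one_le_exp (l * (1 - p) - 1)
  have h2 : Real.exp (l - 1 - Real.log l - l * p) = Real.exp (l * (1 - p) - 1) / l := by
    rw [show l - 1 - Real.log l - l * p = (l * (1 - p) - 1) - Real.log l by ring, Real.exp_sub,
      Real.exp_log hl0]
  rw [h2, le_div_iff₀ hl0]
  linarith

theorem LPC_two (p : ℝ) (h0 : 0 ≤ p) (h1 : p ≤ 1) : 1 - p ≤ Real.exp (-p - p ^ 2 / 2) := by
  rcases h1.lt_or_eq with h | h
  · have hs := Real.hasSum_pow_div_log_of_abs_lt_one (x := p) (by rw [abs_of_nonneg h0]; exact h)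
    have h2 := sum_le_hasSum (Finset.range 2) (fun i _ => by positivity) hs
    rw [Finset.sum_range_succ, Finset.sum_range_one] at h2
    norm_num at h2
    have h3 : (0 : ℝ) < 1 - p := by linarith
    rw [← Real.log_le_iff_le_exp h3]
    linarith
  · rw [h]
    have := Real.exp_pos (-(1 : ℝ) - 1 ^ 2 / 2)
    linarith

theorem stmt_LPC : Stmt_LPC := by
  classical
  intro V _ k M T hpos hsub m p l ph K hp hl hv
  have hN : (0 : ℝ) < Fintype.card V := by exact_mod_cast hpos
  have hp0 : ∀ x, 0 ≤ pr T x := by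
    intro x
    unfold pr
    positivity
  have hp1 : ∀ x, pr T x ≤ 1 := by
    intro x
    unfold pr
    rw [div_le_one hN]
    exact_mod_cast Finset.card_le_univ _
  -- double counting
  have h1 : ∑ x ∈ M, LPC_lam p l x * pr T x * Fintype.card V =
      ∑ v, ∑ x ∈ T v, LPC_lam p l x := by
    have h2 : ∀ x ∈ M, LPC_lam p l x * pr T x * Fintype.card V =
        ∑ v, if x ∈ T v then LPC_lam p l x else 0 := by
      intro x _
      unfold pr
      rw [mul_assoc, div_mul_cancel₀ _ hN.ne', ← Finset.sum_filter, Finset.sum_const,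
        nsmul_eq_mul, mul_comm]
    rw [Finset.sum_congr rfl h2, Finset.sum_comm]
    apply Finset.sum_congr rfl
    intro v _
    rw [← Finset.sum_filter]
    congr 1
    ext x
    simp only [Finset.mem_filter]
    exact ⟨fun h => h.2, fun h => ⟨hsub v h, h⟩⟩
  have h3 : K * Fintype.card V ≤ ∑ v, ((∑ x ∈ T v, LPC_lam p l x) + ph v) := by
    have h4 : ∑ _v : V, K = K * Fintype.card V := by
      rw [Finset.sum_const, Finset.card_univ, nsmul_eq_mul, mul_comm]
    rw [← h4]
    apply Finset.sum_le_sum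
    intro v _
    rw [LPC_sum]
    exact hv v
  rw [Finset.sum_add_distrib] at h3
  have h7 : K - (∑ v, ph v) / Fintype.card V ≤ ∑ x ∈ M, LPC_lam p l x * pr T x := by
    have h8 : (K - (∑ v, ph v) / Fintype.card V) * Fintype.card V ≤
        (∑ x ∈ M, LPC_lam p l x * pr T x) * Fintype.card V := by
      rw [sub_mul, div_mul_cancel₀ _ hN.ne', Finset.sum_mul, h1]
      linarith
    exact le_of_mul_le_mul_right h8 hN
  have h9 := LPC_g p l hl hp M
  have h10 : ∑ x ∈ M, (if ∀ i, x ≠ p i then pr T x ^ 2 / 2 else 0) =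
      (∑ x ∈ M.filter (fun x => ∀ i, x ≠ p i), pr T x ^ 2) / 2 := by
    rw [← Finset.sum_filter, Finset.sum_div]
  calc ∏ x ∈ M, (1 - pr T x)
      ≤ ∏ x ∈ M, Real.exp (LPC_lam p l x - 1 - Real.log (LPC_lam p l x) -
          LPC_lam p l x * pr T x - (if ∀ i, x ≠ p i then pr T x ^ 2 / 2 else 0)) := by
        apply Finset.prod_le_prod
        · intro x _
          linarith [hp1 x]
        · intro x _
          by_cases hx : ∀ i, x ≠ p i
          · rw [if_pos hx, LPC_lam_out p l x hx]
            have h11 := LPC_two (pr T x) (hp0 x) (hp1 x)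
            have h12 : (1 : ℝ) - 1 - Real.log 1 - 1 * pr T x - pr T x ^ 2 / 2 =
                -pr T x - pr T x ^ 2 / 2 := by
              rw [Real.log_one]
              ring
            rw [h12]
            exact h11
          · rw [if_neg hx, sub_zero]
            exact LPC_factor _ _ (LPC_lam_one_le p l hl x)
    _ = Real.exp (∑ x ∈ M, (LPC_lam p l x - 1 - Real.log (LPC_lam p l x) -
          LPC_lam p l x * pr T x - (if ∀ i, x ≠ p i then pr T x ^ 2 / 2 else 0))) := by
        rw [Real.exp_sum]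
    _ ≤ _ := by
        apply Real.exp_le_exp.2
        rw [Finset.sum_sub_distrib, Finset.sum_sub_distrib, h10]
        linarith

end Pool.Agent.Work.MP_1ce445_s9
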