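import Pool.Agent.Work.MP_1ce445_s9.Interface

/-! # Block M3 (MP_1ce445_co, theorem S7): three disjoint present pairs (helper45) -/

namespace Pool.Agent.Work.MP_1ce445_s9

open Finset Pool.Agent.Work.MP_1ce445_co_56 Pool.Agent.Work.MP_1ce445_lin

theorem M3_log : (14 : ℝ) / 25 ≤ Real.log (9 / 5) := by
  have h1 : Real.exp 14 ≤ (9 / 5 : ℝ) ^ 25 := by
    have h2 : Real.exp 14 = Real.exp 1 ^ 14 := by
      rw [Real.exp_one_pow]
      norm_num
    rw [h2]
    have h3 : Real.exp 1 ^ 14 ≤ (2.7182818286 : ℝ) ^ 14 :=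
      pow_le_pow_left₀ (Real.exp_pos 1).le Real.exp_one_lt_d9.le 14
    exact h3.trans (by norm_num)
  have h4 : (14 : ℝ) ≤ Real.log ((9 / 5 : ℝ) ^ 25) := by
    rw [Real.le_log_iff_exp_le (by positivity)]
    exact h1
  rw [Real.log_pow] at h4
  push_cast at h4
  linarith

theorem M3_miss {V : Type} [Fintype V] {k : ℕ} (M : Finset (Fin k)) (T : V → Finset (Fin k)) (c : ℝ)
    (hK : Kf M T c) (a b : Fin k) (hR : R T a b) :
    ∑ v, (if a ∉ T v ∧ b ∉ T v then (9 / 5 : ℝ) else 0) ≤ 9 / 5 * (c * Fintype.card V) := by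
  classical
  obtain ⟨-, v0, hv0⟩ := hR
  have h := hK.few v0
  have e : univ.filter (fun w => T v0 ∩ T w = ∅) = univ.filter (fun v => a ∉ T v ∧ b ∉ T v) := by
    refine Finset.filter_congr (fun v _ => ?_)
    rw [hv0, ← Finset.disjoint_iff_inter_eq_empty, Finset.disjoint_insert_left,
      Finset.disjoint_singleton_left]
  rw [e] at h
  rw [← Finset.sum_filter, Finset.sum_const, nsmul_eq_mul]
  linarith

theorem M3_card {k : ℕ} (S : Finset (Fin k)) (p : Fin 6 → Fin k) (hp : Function.Injective p) :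
    ∑ i, (if p i ∈ S then (1 : ℝ) else 0) ≤ S.card := by
  classical
  rw [← Finset.sum_filter, Finset.sum_const, nsmul_eq_mul, mul_one]
  have h : (univ.filter (fun i => p i ∈ S)).card ≤ S.card :=
    Finset.card_le_card_of_injOn p (fun i hi => (Finset.mem_filter.1 hi).2) (hp.injOn)
  exact_mod_cast h

theorem M3_pair (P Q : Prop) [Decidable P] [Decidable Q] :
    (9 / 5 : ℝ) ≤ ((if P then (1 : ℝ) else 0) + (if Q then (1 : ℝ) else 0)) +
      ((if P then (9 / 5 : ℝ) - 1 else 0) + (if Q then (9 / 5 : ℝ) - 1 else 0)) +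
      (if ¬ P ∧ ¬ Q then (9 / 5 : ℝ) else 0) := by
  by_cases hP : P <;> by_cases hQ : Q <;> simp only [hP, hQ, if_true, if_false, not_true,
    not_false_iff, and_true, and_false, true_and] <;> norm_num

theorem stmt_M3 (h1 : Stmt_TG) (h2 : Stmt_LPC) : Stmt_M3 := by
  classical
  intro V _ k M T c hK a1 b1 a2 b2 a3 b3 hnd r1 r2 r3
  have hinj : Function.Injective (![a1, b1, a2, b2, a3, b3] : Fin 6 → Fin k) := by
    have h := List.nodup_iff_injective_get.1 hnd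
    intro i j hij
    have h2 : ∀ i : Fin 6, (![a1, b1, a2, b2, a3, b3] : Fin 6 → Fin k) i =
        [a1, b1, a2, b2, a3, b3].get ⟨i.val, i.isLt⟩ := by
      intro i
      fin_cases i <;> rfl
    rw [h2, h2] at hij
    have h3 := h hij
    exact Fin.ext (by simpa using congrArg Fin.val h3)
  have hN : (0 : ℝ) < Fintype.card V := by exact_mod_cast hK.pos
  have key := h2 M T hK.pos hK.sub 6 ![a1, b1, a2, b2, a3, b3] (fun _ => 9 / 5)
    (fun v => (if a1 ∉ T v ∧ b1 ∉ T v then (9 / 5 : ℝ) else 0) +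
      (if a2 ∉ T v ∧ b2 ∉ T v then (9 / 5 : ℝ) else 0) +
      (if a3 ∉ T v ∧ b3 ∉ T v then (9 / 5 : ℝ) else 0)) (27 / 5) hinj (fun _ => by norm_num)
    (by
      intro v
      have hc := M3_card (T v) ![a1, b1, a2, b2, a3, b3] hinj
      simp only [Fin.sum_univ_six] at hc ⊢
      have hc' : (if a1 ∈ T v then (1 : ℝ) else 0) + (if b1 ∈ T v then (1 : ℝ) else 0) +
          (if a2 ∈ T v then (1 : ℝ) else 0) + (if b2 ∈ T v then (1 : ℝ) else 0) +
          (if a3 ∈ T v then (1 : ℝ) else 0) + (if b3 ∈ T v then (1 : ℝ) else 0) ≤ (T v).card := hc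
      show (27 / 5 : ℝ) ≤ (T v).card + ((if a1 ∈ T v then (9 / 5 : ℝ) - 1 else 0) +
        (if b1 ∈ T v then (9 / 5 : ℝ) - 1 else 0) + (if a2 ∈ T v then (9 / 5 : ℝ) - 1 else 0) +
        (if b2 ∈ T v then (9 / 5 : ℝ) - 1 else 0) + (if a3 ∈ T v then (9 / 5 : ℝ) - 1 else 0) +
        (if b3 ∈ T v then (9 / 5 : ℝ) - 1 else 0)) +
        ((if a1 ∉ T v ∧ b1 ∉ T v then (9 / 5 : ℝ) else 0) +
        (if a2 ∉ T v ∧ b2 ∉ T v then (9 / 5 : ℝ) else 0) +
        (if a3 ∉ T v ∧ b3 ∉ T v then (9 / 5 : ℝ) else 0))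
      have q1 := M3_pair (a1 ∈ T v) (b1 ∈ T v)
      have q2 := M3_pair (a2 ∈ T v) (b2 ∈ T v)
      have q3 := M3_pair (a3 ∈ T v) (b3 ∈ T v)
      linarith)
  refine key.trans ?_
  have hlog := M3_log
  have hph : (∑ v, ((if a1 ∉ T v ∧ b1 ∉ T v then (9 / 5 : ℝ) else 0) +
      (if a2 ∉ T v ∧ b2 ∉ T v then (9 / 5 : ℝ) else 0) +
      (if a3 ∉ T v ∧ b3 ∉ T v then (9 / 5 : ℝ) else 0))) / Fintype.card V ≤ 27 / 5 * c := by
    rw [div_le_iff₀ hN, Finset.sum_add_distrib, Finset.sum_add_distrib]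
    have m1 := M3_miss M T c hK a1 b1 r1
    have m2 := M3_miss M T c hK a2 b2 r2
    have m3 := M3_miss M T c hK a3 b3 r3
    linarith
  have hsq : 0 ≤ (∑ x ∈ M.filter (fun x => ∀ i, x ≠ (![a1, b1, a2, b2, a3, b3] : Fin 6 → Fin k) i),
      pr T x ^ 2) / 2 :=
    div_nonneg (Finset.sum_nonneg (fun x _ => sq_nonneg _)) (by norm_num)
  have hl : ∑ _i : Fin 6, ((9 / 5 : ℝ) - 1 - Real.log (9 / 5)) =
      24 / 5 - 6 * Real.log (9 / 5) := by
    simp only [Finset.sum_const, Finset.card_univ, Fintype.card_fin, nsmul_eq_mul]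
    push_cast
    ring
  have hT := h1 c (-(3 / 5) - 6 * Real.log (9 / 5)) (27 / 5) hK.cl hK.cu (by norm_num)
    (by linarith) (by linarith)
  refine le_trans (Real.exp_le_exp.2 ?_) hT
  rw [hl]
  linarith

end Pool.Agent.Work.MP_1ce445_s9
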