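import Pool.Agent.Work.MP_1ce445_s9.Interface

/-! # Block TE (MP_1ce445_co, theorem S7): a triangle and a disjoint pair (helper82) -/

namespace Pool.Agent.Work.MP_1ce445_s9

open Finset Pool.Agent.Work.MP_1ce445_co_56 Pool.Agent.Work.MP_1ce445_lin

theorem TE_pr_nonneg {V : Type} [Fintype V] {k : ℕ} (T : V → Finset (Fin k)) (x : Fin k) :
    0 ≤ pr T x := by
  unfold pr
  positivity

/-- a present pair is missed by at most `c N` sets -/
theorem TE_miss {V : Type} [Fintype V] {k : ℕ} (M : Finset (Fin k)) (T : V → Finset (Fin k))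
    (c : ℝ) (hK : Kf M T c) (a b : Fin k) (h : R T a b) :
    (∑ v : V, if a ∉ T v ∧ b ∉ T v then (1 : ℝ) else 0) ≤ c * Fintype.card V := by
  classical
  obtain ⟨_, v0, hv0⟩ := h
  have hf := hK.few v0
  rw [← Finset.sum_filter, Finset.sum_const, nsmul_eq_mul, mul_one]
  refine le_trans ?_ hf
  apply le_of_eq
  congr 2
  ext w
  simp only [Finset.mem_filter, Finset.mem_univ, true_and, hv0]
  constructor
  · rintro ⟨ha, hb⟩
    ext z
    simp only [Finset.mem_inter, Finset.mem_insert, Finset.mem_singleton, Finset.notMem_empty,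
      iff_false, not_and]
    rintro (rfl | rfl)
    · exact ha
    · exact hb
  · intro hw
    have hz : ∀ z, z ∈ ({a, b} : Finset (Fin k)) → z ∉ T w := by
      intro z hz hzw
      have : z ∈ ({a, b} : Finset (Fin k)) ∩ T w := Finset.mem_inter.2 ⟨hz, hzw⟩
      rw [hw] at this
      exact absurd this (Finset.notMem_empty z)
    exact ⟨hz a (by simp), hz b (by simp)⟩

theorem TE_card {k : ℕ} (S : Finset (Fin k)) (x1 x2 x3 y1 y2 : Fin k)
    (h : [x1, x2, x3, y1, y2].Nodup) :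
    (if x1 ∈ S then (1 : ℝ) else 0) + (if x2 ∈ S then (1 : ℝ) else 0) +
      (if x3 ∈ S then (1 : ℝ) else 0) + (if y1 ∈ S then (1 : ℝ) else 0) +
      (if y2 ∈ S then (1 : ℝ) else 0) ≤ S.card := by
  classical
  have e : ((({x1, x2, x3, y1, y2} : Finset (Fin k)).filter (fun x => x ∈ S)).card : ℝ) ≤
      S.card := by
    exact_mod_cast Finset.card_le_card (fun x hx => (Finset.mem_filter.1 hx).2)
  refine le_trans (le_of_eq ?_) e
  simp only [List.nodup_cons, List.mem_cons, List.not_mem_nil, or_false, not_or,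
    List.nodup_nil, and_true, not_false_eq_true] at h
  obtain ⟨⟨a1, a2, a3, a4⟩, ⟨b1, b2, b3⟩, ⟨c1, c2⟩, d1⟩ := h
  rw [Finset.card_filter]
  push_cast
  rw [Finset.sum_insert (by simp [a1, a2, a3, a4]), Finset.sum_insert (by simp [b1, b2, b3]),
    Finset.sum_insert (by simp [c1, c2]), Finset.sum_insert (by simp [d1]),
    Finset.sum_singleton]
  ring

theorem stmt_TE (h1 : Stmt_TG) (h2 : Stmt_LPC) : Stmt_TE := by
  classical
  intro V _ k M T c hK x1 x2 x3 y1 y2 hnd r1 r2 r3 r4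
  have hN : (0 : ℝ) < Fintype.card V := by exact_mod_cast hK.pos
  have hnd' := hnd
  simp only [List.nodup_cons, List.mem_cons, List.not_mem_nil, or_false, not_or,
    List.nodup_nil, and_true, not_false_eq_true] at hnd'
  obtain ⟨⟨a1, a2, a3, a4⟩, ⟨b1, b2, b3⟩, ⟨c1, c2⟩, d1⟩ := hnd'
  have hinj : Function.Injective (![x1, x2, x3, y1, y2] : Fin 5 → Fin k) := by
    intro i j hij
    fin_cases i <;> fin_cases j <;> first | rfl | (exfalso; revert hij; simp [a1, a2, a3, a4, b1, b2, b3, c1, c2, d1, Ne.symm a1, Ne.symm a2, Ne.symm a3, Ne.symm a4, Ne.symm b1, Ne.symm b2, Ne.symm b3, Ne.symm c1, Ne.symm c2, Ne.symm d1])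
  have key := h2 M T hK.pos hK.sub 5 ![x1, x2, x3, y1, y2]
    ![11 / 5, 11 / 5, 11 / 5, 9 / 5, 9 / 5]
    (fun v => 11 / 5 * (if x1 ∉ T v ∧ x2 ∉ T v then (1 : ℝ) else 0) +
      11 / 5 * (if x2 ∉ T v ∧ x3 ∉ T v then (1 : ℝ) else 0) +
      11 / 5 * (if x3 ∉ T v ∧ x1 ∉ T v then (1 : ℝ) else 0) +
      9 / 5 * (if y1 ∉ T v ∧ y2 ∉ T v then (1 : ℝ) else 0)) (31 / 5) hinj
    (by intro i; fin_cases i <;> simp <;> norm_num)
    (by
      intro v
      have hc := TE_card (T v) x1 x2 x3 y1 y2 hnd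
      simp only [Fin.sum_univ_five]
      show (31 / 5 : ℝ) ≤ ((T v).card : ℝ) + ((if x1 ∈ T v then (11 / 5 : ℝ) - 1 else 0) +
        (if x2 ∈ T v then (11 / 5 : ℝ) - 1 else 0) + (if x3 ∈ T v then (11 / 5 : ℝ) - 1 else 0) +
        (if y1 ∈ T v then (9 / 5 : ℝ) - 1 else 0) + (if y2 ∈ T v then (9 / 5 : ℝ) - 1 else 0)) +
        (11 / 5 * (if x1 ∉ T v ∧ x2 ∉ T v then (1 : ℝ) else 0) +
      11 / 5 * (if x2 ∉ T v ∧ x3 ∉ T v then (1 : ℝ) else 0) +
      11 / 5 * (if x3 ∉ T v ∧ x1 ∉ T v then (1 : ℝ) else 0) +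
      9 / 5 * (if y1 ∉ T v ∧ y2 ∉ T v then (1 : ℝ) else 0))
      have hx : (22 / 5 : ℝ) ≤ (if x1 ∈ T v then (1 : ℝ) else 0) + (if x2 ∈ T v then (1 : ℝ) else 0) +
          (if x3 ∈ T v then (1 : ℝ) else 0) + ((if x1 ∈ T v then (11 / 5 : ℝ) - 1 else 0) +
          (if x2 ∈ T v then (11 / 5 : ℝ) - 1 else 0) +
          (if x3 ∈ T v then (11 / 5 : ℝ) - 1 else 0)) +
          (11 / 5 * (if x1 ∉ T v ∧ x2 ∉ T v then (1 : ℝ) else 0) +
          11 / 5 * (if x2 ∉ T v ∧ x3 ∉ T v then (1 : ℝ) else 0) +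
          11 / 5 * (if x3 ∉ T v ∧ x1 ∉ T v then (1 : ℝ) else 0)) := by
        clear hc
        by_cases q1 : x1 ∈ T v <;> by_cases q2 : x2 ∈ T v <;> by_cases q3 : x3 ∈ T v <;>
          simp only [q1, q2, q3, if_true, if_false, not_true, not_false_eq_true, and_self,
            and_true, and_false, false_and] <;> norm_num
      have hy : (9 / 5 : ℝ) ≤ (if y1 ∈ T v then (1 : ℝ) else 0) + (if y2 ∈ T v then (1 : ℝ) else 0) +
          ((if y1 ∈ T v then (9 / 5 : ℝ) - 1 else 0) + (if y2 ∈ T v then (9 / 5 : ℝ) - 1 else 0)) +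
          9 / 5 * (if y1 ∉ T v ∧ y2 ∉ T v then (1 : ℝ) else 0) := by
        clear hc hx
        by_cases q1 : y1 ∈ T v <;> by_cases q2 : y2 ∈ T v <;>
          simp only [q1, q2, if_true, if_false, not_true, not_false_eq_true, and_self,
            and_true, and_false, false_and] <;> norm_num
      linarith)
  unfold Bd
  refine key.trans ?_
  have hsum : (∑ v : V, (11 / 5 * (if x1 ∉ T v ∧ x2 ∉ T v then (1 : ℝ) else 0) +
      11 / 5 * (if x2 ∉ T v ∧ x3 ∉ T v then (1 : ℝ) else 0) +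
      11 / 5 * (if x3 ∉ T v ∧ x1 ∉ T v then (1 : ℝ) else 0) +
      9 / 5 * (if y1 ∉ T v ∧ y2 ∉ T v then (1 : ℝ) else 0))) / Fintype.card V ≤
      42 / 5 * c := by
    rw [div_le_iff₀ hN, Finset.sum_add_distrib, Finset.sum_add_distrib, Finset.sum_add_distrib,
      ← Finset.mul_sum, ← Finset.mul_sum, ← Finset.mul_sum, ← Finset.mul_sum]
    have m1 := TE_miss M T c hK x1 x2 r1
    have m2 := TE_miss M T c hK x2 x3 r2
    have m3 := TE_miss M T c hK x3 x1 r3
    have m4 := TE_miss M T c hK y1 y2 r4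
    linarith
  have hsq : 0 ≤ ∑ x ∈ M.filter (fun x => ∀ i, x ≠ (![x1, x2, x3, y1, y2] : Fin 5 → Fin k) i),
      pr T x ^ 2 := Finset.sum_nonneg (fun x _ => sq_nonneg _)
  have hl : (∑ i : Fin 5, ((![11 / 5, 11 / 5, 11 / 5, 9 / 5, 9 / 5] : Fin 5 → ℝ) i - 1 -
      Real.log ((![11 / 5, 11 / 5, 11 / 5, 9 / 5, 9 / 5] : Fin 5 → ℝ) i))) ≤
      26 / 5 - 5 * Real.log 2 := by
    simp only [Fin.sum_univ_five]
    show ((11 / 5 : ℝ) - 1 - Real.log (11 / 5)) + ((11 / 5 : ℝ) - 1 - Real.log (11 / 5)) +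
      ((11 / 5 : ℝ) - 1 - Real.log (11 / 5)) + ((9 / 5 : ℝ) - 1 - Real.log (9 / 5)) +
      ((9 / 5 : ℝ) - 1 - Real.log (9 / 5)) ≤ 26 / 5 - 5 * Real.log 2
    have e1 : Real.log ((11 / 5 : ℝ) ^ 3 * (9 / 5) ^ 2) = 3 * Real.log (11 / 5) +
        2 * Real.log (9 / 5) := by
      rw [Real.log_mul (by norm_num) (by norm_num), Real.log_pow, Real.log_pow]
      push_cast
      ring
    have e2 : Real.log ((2 : ℝ) ^ 5) = 5 * Real.log 2 := by
      rw [Real.log_pow]; push_cast; ring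
    have e3 : Real.log ((2 : ℝ) ^ 5) ≤ Real.log ((11 / 5 : ℝ) ^ 3 * (9 / 5) ^ 2) :=
      Real.log_le_log (by norm_num) (by norm_num)
    rw [e1, e2] at e3
    linarith
  have htg := h1 c (26 / 5 - 5 * Real.log 2 - 31 / 5) (42 / 5) hK.cl hK.cu (by norm_num)
    (by have := Real.log_two_gt_d9; linarith) (by have := Real.log_two_gt_d9; linarith)
  refine le_trans (Real.exp_le_exp.2 ?_) htg
  linarith

end Pool.Agent.Work.MP_1ce445_s9
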