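import Pool.Agent.Work.MP_1ce445_s9.Interface

namespace Pool.Agent.Work.MP_1ce445_s9

open Finset Pool.Agent.Work.MP_1ce445_co_56 Pool.Agent.Work.MP_1ce445_lin

theorem TG_num (x y : ℝ) (hx : 0 ≤ x) (hy : 0 ≤ y)
    (h : 1 ≤ y * ∑ i ∈ Finset.range 10, x ^ i / (i.factorial : ℝ)) : Real.exp (-x) ≤ y := by
  have h1 := Real.sum_le_exp_of_nonneg hx 10
  have h2 : 1 ≤ y * Real.exp x := h.trans (mul_le_mul_of_nonneg_left h1 hy)
  have h3 : Real.exp (-x) * Real.exp x = 1 := by rw [← Real.exp_add]; simp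
  have h4 : 0 < Real.exp x := Real.exp_pos x
  have h5 : Real.exp (-x) * Real.exp x ≤ y * Real.exp x := by rw [h3]; exact h2
  exact le_of_mul_le_mul_right h5 h4

/-- convexity of `exp` between two points -/
theorem TG_cvx (A B u v t : ℝ) (ht : 0 ≤ t) (ht1 : t ≤ 1) (hA : Real.exp A ≤ u)
    (hB : Real.exp B ≤ v) : Real.exp ((1 - t) * A + t * B) ≤ (1 - t) * u + t * v := by
  have h := convexOn_exp.2 (Set.mem_univ A) (Set.mem_univ B) (sub_nonneg.2 ht1) ht
    (by ring : (1 - t) + t = 1)
  simp only [smul_eq_mul] at h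
  have h1 : (1 - t) * Real.exp A ≤ (1 - t) * u := mul_le_mul_of_nonneg_left hA (sub_nonneg.2 ht1)
  have h2 : t * Real.exp B ≤ t * v := mul_le_mul_of_nonneg_left hB ht
  linarith

theorem stmt_TG : Stmt_TG := by
  intro c a m hc1 hc2 hm h1 h2
  by_cases hc : c ≤ 653 / 5000
  · refine le_trans ?_ ((le_max_left _ _).trans (le_max_right _ _))
    have e1 : Real.exp (-(32961 / 40000)) ≤ 12408 / 28285 :=
      TG_num _ _ (by norm_num) (by norm_num)
        (by norm_num [Finset.sum_range_succ, Nat.factorial])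
    have e2 : Real.exp (-(32329 / 40000)) ≤ 12612 / 28285 :=
      TG_num _ _ (by norm_num) (by norm_num)
        (by norm_num [Finset.sum_range_succ, Nat.factorial])
    set t : ℝ := (c - 301 / 2500) / (51 / 5000) with ht
    have hct : c = 301 / 2500 + 51 / 5000 * t := by rw [ht]; ring
    have t0 : 0 ≤ t := by rw [ht]; exact div_nonneg (by linarith) (by norm_num)
    have t1 : t ≤ 1 := by rw [ht, div_le_one (by norm_num)]; linarith
    have h3 := TG_cvx _ _ _ _ t t0 t1 e1 e2
    have h4 : a + m * c ≤ 4 * ((1 - t) * (-(32961 / 40000)) + t * (-(32329 / 40000))) := by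
      rw [hct]
      nlinarith [mul_le_mul_of_nonneg_left h1 (sub_nonneg.2 t1), mul_le_mul_of_nonneg_left h2 t0]
    have h5 : Real.exp (a + m * c) ≤
        Real.exp ((1 - t) * (-(32961 / 40000)) + t * (-(32329 / 40000))) ^ 4 := by
      rw [← Real.exp_nat_mul]
      refine Real.exp_le_exp.2 (h4.trans (le_of_eq ?_))
      push_cast; ring
    have h6 : Real.exp ((1 - t) * (-(32961 / 40000)) + t * (-(32329 / 40000))) ≤
        (1 + 2 * c) / (28285 / 10000) := by
      refine h3.trans (le_of_eq ?_)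
      rw [hct]; ring
    have h7 : Real.exp ((1 - t) * (-(32961 / 40000)) + t * (-(32329 / 40000))) ^ 4 ≤
        ((1 + 2 * c) / (28285 / 10000)) ^ 4 := pow_le_pow_left₀ (Real.exp_pos _).le h6 4
    refine h5.trans (h7.trans ?_)
    rw [div_pow]
    have h8 : (0 : ℝ) ≤ (1 + 2 * c) ^ 4 := by positivity
    exact div_le_div_of_nonneg_left h8 (by norm_num) (by norm_num)
  · push_neg at hc
    refine le_trans ?_ ((le_max_right _ _).trans (le_max_right _ _))
    have e1 : Real.exp (-(32329 / 40000)) ≤ 4459 / 10000 :=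
      TG_num _ _ (by norm_num) (by norm_num)
        (by norm_num [Finset.sum_range_succ, Nat.factorial])
    have e2 : Real.exp (-(276798 / 400000)) ≤ 505 / 1000 :=
      TG_num _ _ (by norm_num) (by norm_num)
        (by norm_num [Finset.sum_range_succ, Nat.factorial])
    set t : ℝ := (c - 653 / 5000) / (197 / 5000) with ht
    have hct : c = 653 / 5000 + 197 / 5000 * t := by rw [ht]; ring
    have t0 : 0 ≤ t := by rw [ht]; exact div_nonneg (by linarith) (by norm_num)
    have t1 : t ≤ 1 := by rw [ht, div_le_one (by norm_num)]; linarith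
    have h3 := TG_cvx _ _ _ _ t t0 t1 e1 e2
    have h4 : a + m * c ≤ 4 * ((1 - t) * (-(32329 / 40000)) + t * (-(276798 / 400000))) := by
      rw [hct]
      nlinarith [mul_le_mul_of_nonneg_right hm t0]
    have h5 : Real.exp (a + m * c) ≤
        Real.exp ((1 - t) * (-(32329 / 40000)) + t * (-(276798 / 400000))) ^ 4 := by
      rw [← Real.exp_nat_mul]
      refine Real.exp_le_exp.2 (h4.trans (le_of_eq ?_))
      push_cast; ring
    have h6 : Real.exp ((1 - t) * (-(32329 / 40000)) + t * (-(276798 / 400000))) ≤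
        (1 + 6 * c) / 4 := by
      refine h3.trans ?_
      rw [hct]; linarith
    exact h5.trans (pow_le_pow_left₀ (Real.exp_pos _).le h6 4)

end Pool.Agent.Work.MP_1ce445_s9
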