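import Pool.Agent.Work.MP_1ce445_s9.Interface

namespace Pool.Agent.Work.MP_1ce445_s9

open Finset Pool.Agent.Work.MP_1ce445_co_56 Pool.Agent.Work.MP_1ce445_lin

theorem stmt_THH : Stmt_THH := by
  intro V _ k M T c hK x1 x2 x3 h12 h13 h23 n12 n13 n23
  exact absurd n23 (hK.noh x1 x2 x3 h12 h13 h23 n12 n13)

end Pool.Agent.Work.MP_1ce445_s9
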