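import Pool.Agent.Work.MP_1ce445_k4.TNG
import Pool.Agent.Work.MP_1ce445_s9.ALG
import Pool.Agent.Work.MP_1ce445_s9.ALT
import Pool.Agent.Work.MP_1ce445_s9.C4
import Pool.Agent.Work.MP_1ce445_s9.C4S
import Pool.Agent.Work.MP_1ce445_s9.C5
import Pool.Agent.Work.MP_1ce445_s9.CB
import Pool.Agent.Work.MP_1ce445_s9.CIA
import Pool.Agent.Work.MP_1ce445_s9.CKA
import Pool.Agent.Work.MP_1ce445_s9.CL7
import Pool.Agent.Work.MP_1ce445_s9.D11
import Pool.Agent.Work.MP_1ce445_s9.D21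
import Pool.Agent.Work.MP_1ce445_s9.D22
import Pool.Agent.Work.MP_1ce445_s9.DBL
import Pool.Agent.Work.MP_1ce445_s9.DW
import Pool.Agent.Work.MP_1ce445_s9.HCA
import Pool.Agent.Work.MP_1ce445_s9.HV
import Pool.Agent.Work.MP_1ce445_s9.HVR
import Pool.Agent.Work.MP_1ce445_s9.K4
import Pool.Agent.Work.MP_1ce445_s9.LPC
import Pool.Agent.Work.MP_1ce445_s9.M3
import Pool.Agent.Work.MP_1ce445_s9.ONE
import Pool.Agent.Work.MP_1ce445_s9.PH
import Pool.Agent.Work.MP_1ce445_s9.PWH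
import Pool.Agent.Work.MP_1ce445_s9.PWL
import Pool.Agent.Work.MP_1ce445_s9.PWS
import Pool.Agent.Work.MP_1ce445_s9.R1
import Pool.Agent.Work.MP_1ce445_s9.R2
import Pool.Agent.Work.MP_1ce445_s9.STA
import Pool.Agent.Work.MP_1ce445_s9.STL
import Pool.Agent.Work.MP_1ce445_s9.TA
import Pool.Agent.Work.MP_1ce445_s9.TE
import Pool.Agent.Work.MP_1ce445_s9.TG
import Pool.Agent.Work.MP_1ce445_s9.THH
import Pool.Agent.Work.MP_1ce445_s9.THL
import Pool.Agent.Work.MP_1ce445_s9.THR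
import Pool.Agent.Work.MP_1ce445_s9.TLL

/-!
The blocks together.
-/

namespace Pool.Agent.Work.MP_1ce445_s9

open Finset Pool.Agent.Work.MP_1ce445_co_56 Pool.Agent.Work.MP_1ce445_lin

theorem hC4  : Stmt_C4 :=
  stmt_C4 stmt_PH stmt_K4 (stmt_CKA stmt_TG stmt_LPC stmt_C4S) (stmt_CIA stmt_TG stmt_LPC stmt_C4S)
    (stmt_CB stmt_TG stmt_LPC)

theorem hTHR : Stmt_THR := stmt_THR Pool.Agent.Work.MP_1ce445_k4.stmt_TNG stmt_TG

theorem hALT  : Stmt_ALT :=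
  stmt_ALT hTHR (stmt_STL stmt_TA stmt_STA (stmt_R1 stmt_TG) (stmt_R2 stmt_TG)) (stmt_M3 stmt_TG stmt_LPC)
    hC4 (stmt_TE stmt_TG stmt_LPC) (stmt_TLL stmt_TG stmt_LPC) (stmt_PWL stmt_TG stmt_LPC)
    (stmt_PWS stmt_TA stmt_STA (stmt_R1 stmt_TG)) (stmt_C5 stmt_TG stmt_LPC)
    (stmt_DBL hTHR hC4 (stmt_D11 stmt_TG stmt_LPC) (stmt_D21 stmt_TG stmt_LPC)
      (stmt_D22 stmt_TG stmt_LPC) (stmt_DW stmt_TG stmt_LPC)) stmt_CL7
    (stmt_HCA hC4 (stmt_THL stmt_TG stmt_LPC) stmt_THH (stmt_PWH stmt_TG stmt_LPC) (stmt_HV stmt_TA (stmt_HVR stmt_TG)))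

theorem hALG  : Stmt_ALG := stmt_ALG hALT (stmt_ONE stmt_TG stmt_TA)


/-- `BB` at the end of the plateau. -/
theorem BB_end : BB (301 / 2500) ≤ 1 / 27 - 1 / 2000000 := by
  unfold BB
  refine max_le (by norm_num) (max_le (by norm_num) (by norm_num))

/-- Without a heavy triangle the product is at most `1/27 - 1/2000000`. -/
theorem S9 {V : Type} [Fintype V] {k : ℕ} (M : Finset (Fin k)) (T : V → Finset (Fin k))
    (h0 : 0 < Fintype.card V) (hs : ∀ v, T v ⊆ M)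
    (hf : ∀ v, ((univ.filter (fun w => T v ∩ T w = ∅)).card : ℝ) ≤ 301 / 2500 * Fintype.card V) :
    (∃ a b d : Fin k, a ≠ b ∧ a ≠ d ∧ b ≠ d ∧ 301 / 2500 * (Fintype.card V : ℝ) < nx T a b ∧
      301 / 2500 * (Fintype.card V : ℝ) < nx T a d ∧ 301 / 2500 * (Fintype.card V : ℝ) < nx T b d) ∨
    ∏ x ∈ M, (1 - pr T x) ≤ 1 / 27 - 1 / 2000000 := by
  by_cases h : ∃ a b d : Fin k, a ≠ b ∧ a ≠ d ∧ b ≠ d ∧
      301 / 2500 * (Fintype.card V : ℝ) < nx T a b ∧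
      301 / 2500 * (Fintype.card V : ℝ) < nx T a d ∧ 301 / 2500 * (Fintype.card V : ℝ) < nx T b d
  · exact Or.inl h
  · right
    refine le_trans (hALG M T (301 / 2500)
      ⟨h0, hs, le_refl _, by norm_num, hf, fun a b d h1 h2 h3 h4 h5 h6 => ?_⟩) BB_end
    exact h ⟨a, b, d, h1, h2, h3, h4, h5, h6⟩

end Pool.Agent.Work.MP_1ce445_s9
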