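import Pool.Agent.Work.MP_1ce445_s9.End
import Pool.Agent.Work.MP_1ce445_fx.InterfaceU

/-!
Stability of the set systems on the whole first plateau (`c = 301/2500`).
-/

namespace Pool.Agent.Work.MP_1ce445_s9

open Finset Pool.Agent.Work.MP_1ce445_co_56 Pool.Agent.Work.MP_1ce445_lin

theorem S9_meet {V : Type} [Fintype V] {k : ℕ} (T : V → Finset (Fin k)) (c : ℝ) (a b : Fin k)
    (w : V) (h1 : ((univ.filter (fun v => T w ∩ T v = ∅)).card : ℝ) ≤ c * Fintype.card V)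
    (h : c * (Fintype.card V : ℝ) < nx T a b) : a ∈ T w ∨ b ∈ T w := by
  by_contra hn
  push Not at hn
  have h2 : (nx T a b : ℝ) ≤ ((univ.filter (fun v => T w ∩ T v = ∅)).card : ℝ) := by
    unfold nx
    refine Nat.cast_le.2 (Finset.card_le_card fun v hv => ?_)
    rw [mem_filter] at hv ⊢
    refine ⟨mem_univ _, ?_⟩
    rw [hv.2, Finset.eq_empty_iff_forall_notMem]
    intro x hx
    rw [mem_inter, mem_insert, mem_singleton] at hx
    rcases hx.2 with h3 | h3
    · exact hn.1 (h3 ▸ hx.1)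
    · exact hn.2 (h3 ▸ hx.1)
  linarith

theorem S9_mem {V : Type} [Fintype V] {k : ℕ} (M : Finset (Fin k)) (T : V → Finset (Fin k))
    (hs : ∀ v, T v ⊆ M) (a b : Fin k) (h : 301 / 2500 * (Fintype.card V : ℝ) < nx T a b) :
    a ∈ M ∧ b ∈ M := by
  have h4 : 0 < nx T a b := by
    by_contra hc
    have h5 : nx T a b = 0 := by omega
    rw [h5, Nat.cast_zero] at h
    have : (0 : ℝ) ≤ 301 / 2500 * (Fintype.card V : ℝ) := by positivity
    linarith
  obtain ⟨w, hw⟩ := Finset.card_pos.1 h4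
  have hw' := (Finset.mem_filter.1 hw).2
  have h5 := hs w
  rw [hw'] at h5
  exact ⟨h5 (by simp), h5 (by simp)⟩

theorem S9_two {k : ℕ} (S : Finset (Fin k)) (a b d x y : Fin k) (hxy : x ≠ y) (hx : x ∈ S)
    (hy : y ∈ S) (hx' : x = a ∨ x = b ∨ x = d) (hy' : y = a ∨ y = b ∨ y = d) :
    2 ≤ (S ∩ {a, b, d}).card := by
  have h : ({x, y} : Finset (Fin k)) ⊆ S ∩ {a, b, d} := by
    intro z hz
    rw [mem_insert, mem_singleton] at hz
    rw [mem_inter]
    rcases hz with rfl | rfl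
    · exact ⟨hx, by simpa using hx'⟩
    · exact ⟨hy, by simpa using hy'⟩
  calc 2 = ({x, y} : Finset (Fin k)).card := (Finset.card_pair hxy).symm
    _ ≤ _ := Finset.card_le_card h

theorem S9_final {V : Type} [Fintype V] {k : ℕ} (M : Finset (Fin k)) (T : V → Finset (Fin k))
    (h0 : 0 < Fintype.card V) (hs : ∀ v, T v ⊆ M)
    (hf : ∀ v, ((univ.filter (fun w => T v ∩ T w = ∅)).card : ℝ) ≤ 301 / 2500 * Fintype.card V) :
    (∏ x ∈ M, (1 - MP_1ce445_fx.prU T x) ≤ 1 / 27 - 1 / 2000000) ∨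
    ∃ a b d : Fin k, a ≠ b ∧ a ≠ d ∧ b ≠ d ∧ a ∈ M ∧ b ∈ M ∧ d ∈ M ∧
      ∀ v, 2 ≤ (T v ∩ {a, b, d}).card := by
  rcases S9 M T h0 hs hf with ⟨a, b, d, h1, h2, h3, h4, h5, h6⟩ | h
  · right
    refine ⟨a, b, d, h1, h2, h3, (S9_mem M T hs a b h4).1, (S9_mem M T hs a b h4).2,
      (S9_mem M T hs a d h5).2, fun v => ?_⟩
    have e1 := S9_meet T _ a b v (hf v) h4
    have e2 := S9_meet T _ a d v (hf v) h5
    have e3 := S9_meet T _ b d v (hf v) h6
    by_cases ha : a ∈ T v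
    · by_cases hb : b ∈ T v
      · exact S9_two _ a b d a b h1 ha hb (by tauto) (by tauto)
      · exact S9_two _ a b d a d h2 ha (e3.resolve_left hb) (by tauto) (by tauto)
    · exact S9_two _ a b d b d h3 (e1.resolve_left ha) (e2.resolve_left ha) (by tauto) (by tauto)
  · left
    exact h

end Pool.Agent.Work.MP_1ce445_s9
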